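import Mathlib
import Pool.Agent.TH143.HE.Proj

/-!
Rational curves of bounded degree through the points of a sequence.
-/

set_option autoImplicit false

namespace Pool.Agent.X332.GS

open MvPolynomial Filter Pool.Agent.TH143 Pool.Agent.TH143.DE Pool.Agent.TH143.HE

variable {N : ℕ} {B : Subalgebra ℂ (ℕ → ℂ)}

/-- **The curves.** -/
theorem exists_rcD (hB : CoefField B) {x : ℕ → Fin (N + 1) → ℂ}
    (hx : ∀ j, LinRec B (fun m => x m j)) {ℓ : MvPolynomial (Fin (N + 1)) ℂ}
    (hℓ : ℓ.IsHomogeneous 1) (hℓx : ∀ᶠ m in atTop, eval (x m) ℓ ≠ 0)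
    {s : Set (MvPolynomial (Fin (N + 1)) ℂ)} (hs : ∀ G ∈ s, ∃ d, G.IsHomogeneous d)
    (hsx : ∀ G ∈ s, ∀ᶠ m in atTop, eval (x m) G = 0) :
    ∃ t, ∀ (I : Ideal (ℕ → ℂ)) (hI : EZ ≤ I) (_ : I.IsPrime) (K : Type) [Field K]
      [Algebra ((ℕ → ℂ) ⧸ I) K] [IsFractionRing ((ℕ → ℂ) ⧸ I) K] [Algebra ℂ K]
      [IsScalarTower ℂ ((ℕ → ℂ) ⧸ I) K], ∀ j, Transcendental (cf hB hI K)
      (algebraMap ((ℕ → ℂ) ⧸ I) K (mk' I fun m => x (m + t) j / eval (x (m + t)) ℓ)) →
      ∃ D : ℕ, ∃ᶠ m in atTop, ∃ p : Fin (N + 1) → Polynomial ℂ, (∀ i, (p i).natDegree ≤ D) ∧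
        (∀ G ∈ s, (aeval p G : Polynomial ℂ) = 0) ∧ (fun j => (p j).eval 1) = x (m + t) ∧
        NonConst p := by
  classical
  obtain ⟨t, n, A, U, Φ, hU, hdet, hΦ⟩ := exists_sys hB (fun j m => x m j) hx
  refine ⟨t, ?_⟩
  intro I hI hIp K _ _ _ _ _ j hj
  have hdom : IsDomain ((ℕ → ℂ) ⧸ I) := Ideal.Quotient.isDomain I
  have hpt : ∀ᶠ m in atTop, pt U Φ m = x (m + t) := by
    filter_upwards [hΦ] with m hm
    funext i
    exact (hm i).symm
  obtain ⟨D, hD⟩ := der_of_transcendental hj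
  set a := algebraMap ((ℕ → ℂ) ⧸ I) K with ha
  have hcl : ∀ G : MvPolynomial (Fin (N + 1)) ℂ, a (cl I fun m => eval (pt U Φ m) G) =
      a (mk' I fun m => eval (x (m + t)) G) := by
    intro G
    congr 1
    change mk' I _ = _
    rw [← sub_eq_zero, ← map_sub]
    refine mk'_zero.2 (hI ?_)
    rw [mem_EZ]
    filter_upwards [hpt] with m hm
    rw [Pi.sub_apply, hm, sub_self]
  have hℓt := eventually_shift hℓx t
  set z := a (mk' I fun m => x (m + t) j / eval (x (m + t)) ℓ) with hz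
  set y := a (mk' I fun m => eval (x (m + t)) ℓ) with hy
  have hy0 : y ≠ 0 := by
    intro h0
    have h1 : (mk' I fun m => eval (x (m + t)) ℓ) = 0 :=
      (map_eq_zero_iff a (IsFractionRing.injective _ K)).1 h0
    have h2 := mk'_zero.1 h1
    have h9 : (1 : ℕ → ℂ) ∈ I := by
      have h10 : (fun m => (eval (x (m + t)) ℓ)⁻¹ * eval (x (m + t)) ℓ) ∈ I :=
        I.mul_mem_left (fun m => (eval (x (m + t)) ℓ)⁻¹) h2
      have h11 : (1 : ℕ → ℂ) - (fun m => (eval (x (m + t)) ℓ)⁻¹ * eval (x (m + t)) ℓ) ∈ I := by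
        apply hI
        rw [mem_EZ]
        filter_upwards [hℓt] with m hm
        rw [Pi.sub_apply, Pi.one_apply, inv_mul_cancel₀ hm, sub_self]
      have h12 := I.add_mem h11 h10
      rwa [sub_add_cancel] at h12
    exact hIp.ne_top ((Ideal.eq_top_iff_one I).2 h9)
  have hzy : a (mk' I fun m => eval (x (m + t)) (X j)) = z * y := by
    rw [hz, hy, ← map_mul, ← map_mul]
    congr 1
    rw [← sub_eq_zero, ← map_sub]
    refine mk'_zero.2 (hI ?_)
    rw [mem_EZ]
    filter_upwards [hℓt] with m hm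
    rw [Pi.sub_apply, Pi.mul_apply, eval_X, div_mul_cancel₀ _ hm, sub_self]
  obtain ⟨W, hR, h1, -, hN⟩ := emb hB A U hU hdet hI (K := K) D
    (fun a b => map_add D a b) (fun a b => D.leibniz a b)
    (fun b hb => D.map_algebraMap (⟨_, b, hb, rfl⟩ : cf hB hI K)) Φ ℓ (X j)
    hℓ (isHomogeneous_X _ _) (by
      rw [← ha, hcl, hcl, hzy, ← hy]
      have h2 : D (z * y) = z * D y + y * D z := D.leibniz z y
      have h3 : D z = 1 := hD
      rw [h2, h3]
      have h4 : (z * D y + y * 1) * y - z * y * D y = y ^ 2 := by ring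
      rw [h4]
      exact pow_ne_zero _ hy0) 1 (isHomogeneous_one _ _) (by
      filter_upwards with m
      rw [map_one]
      exact one_ne_zero) 1 (by
      filter_upwards with m
      rw [map_one, map_one]
      change (1 : ℂ) = (1 : ℕ → ℂ) m * 1
      rw [Pi.one_apply, one_mul])
  -- finitely many forms
  obtain ⟨T, hTs, hT⟩ : ∃ T : Finset (MvPolynomial (Fin (N + 1)) ℂ), (T : Set _) ⊆ s ∧
      Ideal.span s = Ideal.span (T : Set (MvPolynomial (Fin (N + 1)) ℂ)) :=
    Submodule.fg_span_iff_fg_span_finset_subset s |>.1 (IsNoetherian.noetherian _)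
  have hJT : ∀ᶠ m in atTop, ∀ G ∈ T, ∀ u, u ≠ 0 → evp m u (aeval W G) = 0 := by
    rw [Finset.eventually_all]
    intro G hG
    refine hR _ (hs G (hTs hG)) ?_
    filter_upwards [hpt, eventually_shift (hsx G (hTs hG)) t] with m h3 h4
    rw [h3]
    exact h4
  have hfreq : ∃ᶠ m in atTop, evp m 1 (Polynomial.derivative (aeval W (X j :
      MvPolynomial (Fin (N + 1)) ℂ)) * aeval W ℓ - aeval W (X j : MvPolynomial (Fin (N + 1)) ℂ) *
          Polynomial.derivative (aeval W ℓ)) ≠ 0 := by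
    intro hcon
    apply hN
    apply hI
    rw [mem_EZ]
    filter_upwards [hcon] with m hm
    by_contra h2
    exact hm h2
  refine ⟨Finset.univ.sup fun i => (W i).natDegree,
    (hfreq.and_eventually (hpt.and hJT)).mono ?_⟩
  rintro m ⟨hm, h3, h5⟩
  let ev : ℕ → (Polynomial (ℕ → ℂ)) → Polynomial ℂ := fun m p =>
    p.map (Pi.evalAlgHom ℂ (fun _ : ℕ => ℂ) m : (ℕ → ℂ) →+* ℂ)
  have hev : ∀ (p : Polynomial (ℕ → ℂ)) (u : ℂ), evp m u p = (ev m p).eval u :=
    fun p u => evp_eq m u p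
  have heva : ∀ G : MvPolynomial (Fin (N + 1)) ℂ, ev m (aeval W G) =
      aeval (fun i => ev m (W i)) G := by
    intro G
    exact Pool.Agent.TH143.GT.map_aeval' (Pi.evalAlgHom ℂ (fun _ : ℕ => ℂ) m) W G
  refine ⟨fun i => ev m (W i), fun i => Polynomial.natDegree_map_le.trans
    (Finset.le_sup (f := fun i => (W i).natDegree) (Finset.mem_univ i)), ?_, ?_, ?_⟩
  · have h9 : ∀ G ∈ (T : Set (MvPolynomial (Fin (N + 1)) ℂ)),
        (aeval (fun i => ev m (W i)) G : Polynomial ℂ) = 0 := by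
      intro G hG
      rw [← heva]
      apply Polynomial.eq_zero_of_infinite_isRoot
      refine Set.Infinite.mono (s := {x : ℂ | x ≠ 0}) ?_
        (Set.finite_singleton (0 : ℂ)).infinite_compl
      intro u hu
      change Polynomial.eval u _ = 0
      rw [← hev]
      exact h5 G hG u hu
    intro G hG
    have h10 : Ideal.span (T : Set (MvPolynomial (Fin (N + 1)) ℂ)) ≤
        RingHom.ker (aeval (fun i => ev m (W i)) :
          MvPolynomial (Fin (N + 1)) ℂ →ₐ[ℂ] Polynomial ℂ) :=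
      Ideal.span_le.2 fun G hG => h9 G hG
    rw [← hT] at h10
    exact h10 (Ideal.subset_span hG)
  · funext i
    rw [← hev, h1, h3]
  · by_contra hcon
    apply hm
    rw [hev]
    have h9 : ev m (Polynomial.derivative (aeval W (X j : MvPolynomial (Fin (N + 1)) ℂ)) *
        aeval W ℓ - aeval W (X j : MvPolynomial (Fin (N + 1)) ℂ) *
          Polynomial.derivative (aeval W ℓ)) =
        Polynomial.derivative (ev m (W j)) * aeval (fun i => ev m (W i)) ℓ -
          ev m (W j) * Polynomial.derivative (aeval (fun i => ev m (W i)) ℓ) := by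
      rw [← heva]
      simp only [ev, Polynomial.map_sub, Polynomial.map_mul, Polynomial.derivative_map, aeval_X]
    rw [h9]
    exact wronsk_zero hcon hℓ j 1



end Pool.Agent.X332.GS
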