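import Mathlib
import Pool.Agent.X332.GS.Rc
import Pool.Agent.X332.GT.Spec
import Pool.Agent.X332.OR.Main
import Pool.Agent.H533R3.SL.Asm

/-!
Generic sequences of points on varieties of general type.
-/

set_option autoImplicit false

namespace Pool.Agent.X332.GS

open Filter Module MvPolynomial FF Pool.Agent.W602.GT Pool.Agent.TH143.HE
  Pool.Agent.TH143.TW Pool.Agent.TH143.DE Pool.Agent.TH143.GE Pool.Agent.TH143.GT Pool.Agent.X332.GT

variable {N : ℕ} {K : Type} [Field K] [Algebra ℂ K] {w : ℕ} {y : Fin (N + 1) → K}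
  {B B' : Subalgebra ℂ (ℕ → ℂ)} {x : ℕ → Fin (N + 1) → ℂ}

/-- Almost all points `x m` lie on the variety with the generic point `y`, and every proper closed
subset of the variety contains only finitely many terms of the sequence. -/
def GenSeq (y : Fin (N + 1) → K) (x : ℕ → Fin (N + 1) → ℂ) : Prop :=
  ∀ G : MvPolynomial (Fin (N + 1)) ℂ, IsForm G →
    (W602.GT.val y G = 0 → ∀ᶠ m in atTop, eval (x m) G = 0) ∧
    (W602.GT.val y G ≠ 0 → ∀ᶠ m in atTop, eval (x m) G ≠ 0)

theorem GenSeq.sub (h : GenSeq y x) {f : ℕ → ℕ} (hf : Tendsto f atTop atTop) :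
    GenSeq y fun m => x (f m) := by
  intro G hG
  exact ⟨fun h0 => hf.eventually ((h G hG).1 h0), fun h0 => hf.eventually ((h G hG).2 h0)⟩

theorem GenSeq.scale (h : GenSeq y x) {b : ℕ → ℂ} (hb : ∀ᶠ m in atTop, b m ≠ 0) :
    GenSeq y fun m j => b m * x m j := by
  rintro G ⟨d, hd⟩
  have h1 : ∀ m, eval (fun j => b m * x m j) G = b m ^ d * eval (x m) G := fun m =>
    eval_smul_homog hd (b m) (x m)
  constructor
  · intro h0
    filter_upwards [(h G ⟨d, hd⟩).1 h0] with m hm
    rw [h1, hm, mul_zero]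
  · intro h0
    filter_upwards [(h G ⟨d, hd⟩).2 h0, hb] with m hm hbm
    rw [h1]
    exact mul_ne_zero (pow_ne_zero _ hbm) hm

theorem GenSeq.ne (h : GenSeq y x) (hy : y ≠ 0) : ∀ᶠ m in atTop, x m ≠ 0 := by
  obtain ⟨i0, hi0⟩ := Function.ne_iff.1 hy
  have h1 := (h (X i0) ⟨1, isHomogeneous_X _ _⟩).2 (by
    unfold W602.GT.val
    rw [aeval_X]
    exact hi0)
  filter_upwards [h1] with m hm h0
  apply hm
  rw [eval_X, h0]
  rfl

theorem relI_le (y : Fin (N + 1) → K) {G : MvPolynomial (Fin (N + 1)) ℂ} (hG : G ∈ relI y) :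
    W602.GT.val y G = 0 := by
  have h1 : relI y ≤ RingHom.ker (aeval y : MvPolynomial (Fin (N + 1)) ℂ →ₐ[ℂ] K) :=
    Ideal.span_le.2 fun H hH => hH.2
  exact h1 hG

theorem relI_prime (y : Fin (N + 1) → K) : (relI y).IsPrime := by
  let _ : GradedAlgebra (homogeneousSubmodule (Fin (N + 1)) ℂ) := MvPolynomial.gradedAlgebra
  have hh : (relI y).IsHomogeneous (homogeneousSubmodule (Fin (N + 1)) ℂ) := by
    refine Ideal.homogeneous_span _ _ fun f hf => ?_
    obtain ⟨⟨k, hk⟩, -⟩ := hf
    exact ⟨k, hk⟩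
  refine hh.isPrime_of_homogeneous_mem_or_mem ?_ ?_
  · intro h
    have h1 := relI_le y (G := 1) (by rw [h]; trivial)
    rw [val_one] at h1
    exact one_ne_zero h1
  · rintro a b ⟨i, ha⟩ ⟨j, hb⟩ hab
    have h1 := relI_le y hab
    unfold W602.GT.val at h1
    rw [map_mul] at h1
    rcases mul_eq_zero.1 h1 with h2 | h2
    · exact Or.inl (Ideal.subset_span ⟨⟨i, ha⟩, h2⟩)
    · exact Or.inr (Ideal.subset_span ⟨⟨j, hb⟩, h2⟩)

theorem val_map {L L' : Type} [Field L] [Algebra ℂ L] [CommRing L'] [Algebra ℂ L']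
    (f : L' →ₐ[ℂ] L) (p : Fin (N + 1) → L') (G : MvPolynomial (Fin (N + 1)) ℂ) :
    W602.GT.val (fun i => f (p i)) G = f (aeval p G) :=
  (MvPolynomial.comp_aeval_apply (f := p) f G).symm

/-- varieties of general type are not uniruled -/
theorem not_uniruled (hw : 0 < w) (hgt : GeneralType ℂ K w) (hy : y ≠ 0) (hgen : coords ℂ y = ⊤) :
    ¬ H533R3.SL.Uniruled (relI y) := by
  rintro ⟨L, _, _, p, hp0, hp1, i1, i2, hp2⟩
  obtain ⟨i0, hi0⟩ := Function.ne_iff.1 hy
  have hi0' : y i0 ≠ 0 := hi0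
  let f : Polynomial L →ₐ[ℂ] RatFunc L :=
    (IsScalarTower.toAlgHom (Polynomial L) (Polynomial L) (RatFunc L)).restrictScalars ℂ
  have hf : ∀ q, f q = algebraMap (Polynomial L) (RatFunc L) q := fun q => rfl
  have hinj : Function.Injective f := RatFunc.algebraMap_injective L
  have hrel : ∀ G : MvPolynomial (Fin (N + 1)) ℂ, IsForm G →
      (W602.GT.val y G = 0 ↔ W602.GT.val (fun i => f (p i)) G = 0) := by
    intro G hG
    rw [val_map]
    constructor
    · intro h0
      rw [hp0 G (Ideal.subset_span ⟨hG, h0⟩), map_zero]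
    · intro h0
      by_contra hne
      refine hp1 G hG (fun h => hne (relI_le y h)) ?_
      have h1 := (map_eq_zero_iff f hinj).1 h0
      have h2 := MvPolynomial.comp_aeval_apply (f := p)
        ((Polynomial.aeval (1 : L)).restrictScalars ℂ) G
      have h3 : (fun i => ((Polynomial.aeval (1 : L)).restrictScalars ℂ : Polynomial L →ₐ[ℂ] L)
          (p i)) = fun i => (p i).eval 1 := by
        funext i
        exact Polynomial.aeval_def (1 : L) (p i)
      rw [← h3, ← h2, h1, map_zero]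
  have hpi : f (p i0) ≠ 0 := by
    intro h0
    apply hi0'
    have h1 := (hrel (X i0) ⟨1, isHomogeneous_X _ _⟩).2 (by
      unfold W602.GT.val
      rw [aeval_X]
      exact h0)
    unfold W602.GT.val at h1
    rwa [aeval_X] at h1
  obtain ⟨φ, hφ⟩ := exists_embedding hi0' hpi hgen hrel
  have hcov : Covered K := by
    by_contra hcon
    unfold Covered at hcon
    push Not at hcon
    have h2 : ∀ i, ∃ c : L, p i = Polynomial.C c * p i0 := by
      intro i
      obtain ⟨c, hc⟩ := hcon L inferInstance inferInstance φ (y i / y i0)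
      refine ⟨c, hinj ?_⟩
      rw [hφ i, div_eq_iff hpi] at hc
      rw [hc, map_mul]
      rfl
    choose c hc using h2
    apply hp2
    rw [hc i1, hc i2, Polynomial.eval_mul, Polynomial.eval_mul, Polynomial.eval_C,
      Polynomial.eval_C, Polynomial.C_mul, Polynomial.C_mul]
    ring
  exact Pool.Agent.Y377.IL.not_gt (fun n hn ω hω => Pool.Agent.Y288.IL.t_PL N (relI y) K w y
    (relI_funField hy hgen hgt.1) hw hcov n hn ω hω) hgt

/-- **No rational curves of bounded degree** through infinitely many terms of a generic sequence. -/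
theorem no_curves (hnu : ¬ H533R3.SL.Uniruled (relI y)) (hy : y ≠ 0) (hx : GenSeq y x) (D : ℕ) :
    ¬ ∃ᶠ m in atTop, ∃ p : Fin (N + 1) → Polynomial ℂ, (∀ i, (p i).natDegree ≤ D) ∧
      (∀ G : MvPolynomial (Fin (N + 1)) ℂ, IsForm G → W602.GT.val y G = 0 →
        (aeval p G : Polynomial ℂ) = 0) ∧ (fun j => (p j).eval 1) = x m ∧ NonConst p := by
  classical
  intro hfreq
  obtain ⟨T, hTs, hT⟩ : ∃ T : Finset (MvPolynomial (Fin (N + 1)) ℂ),
      (T : Set (MvPolynomial (Fin (N + 1)) ℂ)) ⊆ {H | IsForm H ∧ W602.GT.val y H = 0} ∧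
      Ideal.span {H : MvPolynomial (Fin (N + 1)) ℂ | IsForm H ∧ W602.GT.val y H = 0} =
        Ideal.span (T : Set (MvPolynomial (Fin (N + 1)) ℂ)) :=
    Submodule.fg_span_iff_fg_span_finset_subset _ |>.1 (IsNoetherian.noetherian _)
  change relI y = _ at hT
  choose! e he using fun (H : MvPolynomial (Fin (N + 1)) ℂ)
    (hH : H ∈ (T : Set (MvPolynomial (Fin (N + 1)) ℂ))) => (hTs hH).1
  have hprime := relI_prime y
  rw [hT] at hprime hnu
  obtain ⟨G, hG1, hG2, hG3⟩ := H533R3.SL.exists_hyper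
    (T : Set (MvPolynomial (Fin (N + 1)) ℂ)) hprime hnu (1 + T.sup e) (by omega)
    (fun F hF => ⟨e F, (Finset.le_sup (f := e) (Finset.mem_coe.1 hF)).trans (by omega), he F hF⟩)
    (D + 1)
  have h1 := (hx G hG1).2 (fun h0 => hG2 (by rw [← hT]; exact Ideal.subset_span ⟨hG1, h0⟩))
  obtain ⟨m, ⟨p, hpD, hp0, hp1, hnc⟩, hm1, hm2⟩ := (hfreq.and_eventually (h1.and (hx.ne hy))).exists
  apply hm1
  let c : Fin (D + 1) → Fin (N + 1) → ℂ := fun j i => (p i).coeff j
  let l : Fin (D + 1) → ℕ := fun j => j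
  have hcur : ∀ i, H533R3.SL.cur c l i = p i := by
    intro i
    unfold H533R3.SL.cur
    rw [(p i).as_sum_range_C_mul_X_pow' (n := D + 1) (Nat.lt_succ_of_le (hpD i)),
      Finset.sum_range]
  have hcur' : H533R3.SL.cur c l = p := funext hcur
  have hev : ∀ i, ∑ j, c j i = (p i).eval 1 := by
    intro i
    rw [← hcur i]
    unfold H533R3.SL.cur
    rw [Polynomial.eval_finsetSum]
    refine Finset.sum_congr rfl fun j _ => ?_
    rw [Polynomial.eval_mul, Polynomial.eval_C, Polynomial.eval_pow, Polynomial.eval_X, one_pow,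
      mul_one]
  have h3 := hG3 ℂ c l (fun F hF => by
    rw [hcur']
    exact hp0 F (hTs hF).1 (hTs hF).2) (by
    rw [hcur']
    by_contra hcon
    push Not at hcon
    obtain ⟨i0, hi0⟩ := Function.ne_iff.1 hm2
    have hi0' : (p i0).eval 1 ≠ 0 := by
      rw [← hp1] at hi0
      exact hi0
    obtain ⟨j, k, u, v, h4⟩ := hnc
    apply h4
    have h5 : ∀ i u, (p i).eval u * (p i0).eval 1 = (p i0).eval u * (p i).eval 1 := by
      intro i u
      have h6 := congrArg (Polynomial.eval u) (hcon i i0)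
      rw [Polynomial.eval_mul, Polynomial.eval_mul, Polynomial.eval_C, Polynomial.eval_C, hev,
        hev] at h6
      exact h6
    have h7 := h5 j u
    have h8 := h5 k v
    have h9 := h5 k u
    have h10 := h5 j v
    apply mul_left_cancel₀ (mul_ne_zero hi0' hi0')
    calc (p i0).eval 1 * (p i0).eval 1 * ((p j).eval u * (p k).eval v)
        = ((p j).eval u * (p i0).eval 1) * ((p k).eval v * (p i0).eval 1) := by ring
      _ = ((p i0).eval u * (p j).eval 1) * ((p i0).eval v * (p k).eval 1) := by rw [h7, h8]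
      _ = ((p i0).eval u * (p k).eval 1) * ((p i0).eval v * (p j).eval 1) := by ring
      _ = ((p k).eval u * (p i0).eval 1) * ((p j).eval v * (p i0).eval 1) := by rw [h9, h10]
      _ = _ := by ring)
  have h4 : (fun i => ∑ j, c j i) = x m := by
    rw [← hp1]
    funext i
    exact hev i
  rw [h4, MvPolynomial.aeval_eq_eval] at h3
  exact h3

end Pool.Agent.X332.GS
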