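import Mathlib
import Pool.Agent.X332.GT.Spec
import Pool.Agent.X332.TO.Base
import Pool.Agent.Y221.FQ.Top

/-!
The dynamical special set lies between the special set of the images of the multiplicative group and
the special set of the subvarieties which are not of general type.
-/

set_option autoImplicit false

namespace Pool.Agent.X332.GS

open Filter Module MvPolynomial FF Pool.Agent.W602.GT Pool.Agent.TH143.HE
  Pool.Agent.TH143.TW Pool.Agent.TH143.DE Pool.Agent.TH143.GE Pool.Agent.X332.GT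
open Pool.Agent.X332.TO

variable {n : ℕ} {ι : Type} {F : ι → MvPolynomial (Fin (n + 1)) ℂ}

/-- All sequences of points of the projective variety `X = {F = 0}`, outside of the set `Z` (given by
homogeneous coordinates), with homogeneous coordinates which satisfy linear recurrences over the last
field of a tower, are eventually periodic. -/
def TowersPeriodic (F : ι → MvPolynomial (Fin (n + 1)) ℂ) (Z : Set (Fin (n + 1) → ℂ)) : Prop :=
  ∀ B : Subalgebra ℂ (ℕ → ℂ), TowF B → ∀ x : ℕ → Fin (n + 1) → ℂ,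
    (∀ j, LinRec B fun m => x m j) → (∀ᶠ m in atTop, x m ∈ Cone F) →
    (∀ᶠ m in atTop, x m ∉ Z) → Per x

/-- All sequences of points of `X = {F = 0}`, outside of `Z`, with homogeneous coordinates in a
finitely generated field of coefficients are eventually periodic. -/
def FieldsPeriodic (F : ι → MvPolynomial (Fin (n + 1)) ℂ) (Z : Set (Fin (n + 1) → ℂ)) : Prop :=
  ∀ B : Subalgebra ℂ (ℕ → ℂ), CoefField B → FinGen B → ∀ x : ℕ → Fin (n + 1) → ℂ,
    (∀ j, (fun m => x m j) ∈ B) → (∀ᶠ m in atTop, x m ∈ Cone F) →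
    (∀ᶠ m in atTop, x m ∉ Z) → Per x

/-- The dynamical special set of `X` (as a cone): the intersection of the closed subsets `Z` (the
zeros of sets `S` of forms) outside of which the sequences given by towers are eventually
periodic. -/
def SpDyn (F : ι → MvPolynomial (Fin (n + 1)) ℂ) : Set (Fin (n + 1) → ℂ) :=
  {x | x ∈ Cone F ∧ ∀ S : Set (MvPolynomial (Fin (n + 1)) ℂ), Forms S →
    TowersPeriodic F (Zeros ℂ S) → x ∈ Zeros ℂ S}

theorem forms_range (hF : ∀ e, IsForm (F e)) : Forms (Set.range F) := by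
  rintro _ ⟨e, rfl⟩
  exact hF e

theorem cone_iff {x : Fin (n + 1) → ℂ} : x ∈ Cone F ↔ x ≠ 0 ∧ x ∈ Zeros ℂ (Set.range F) := by
  constructor
  · rintro ⟨h1, h2⟩
    refine ⟨h1, ?_⟩
    rintro _ ⟨e, rfl⟩
    exact h2 e
  · rintro ⟨h1, h2⟩
    exact ⟨h1, fun e => h2 _ ⟨e, rfl⟩⟩

theorem tow_iff (hF : ∀ e, IsForm (F e)) {S : Set (MvPolynomial (Fin (n + 1)) ℂ)}
    (hS : Forms S) : TowersPeriodic F (Zeros ℂ S) ↔ Dyn (Set.range F) S := by
  have hX := forms_range hF
  constructor
  · intro h B hB hFg x h1 h2 h3 h4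
    refine h B (TowF.base hB hFg) x (fun j => linRec_of_mem hB (h2 j)) ?_ ?_
    · filter_upwards [h1, h3] with m h5 h6
      exact cone_iff.2 ⟨h5, (isPtP_spanC hX).1 h6⟩
    · filter_upwards [h4] with m h5 h6
      exact h5 ((isPtP_spanC hS).2 h6)
  · intro h B hB x h1 h2 h3
    refine towF_good h hB x ?_ h1 ?_ ?_
    · filter_upwards [h2] with m h4
      exact (cone_iff.1 h4).1
    · filter_upwards [h2] with m h4
      exact (isPtP_spanC hX).2 (cone_iff.1 h4).2
    · filter_upwards [h3] with m h4 h5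
      exact h4 ((isPtP_spanC hS).1 h5)

theorem fields_iff (hF : ∀ e, IsForm (F e)) {S : Set (MvPolynomial (Fin (n + 1)) ℂ)}
    (hS : Forms S) : FieldsPeriodic F (Zeros ℂ S) ↔ Dyn (Set.range F) S := by
  have hX := forms_range hF
  constructor
  · intro h B hB hFg x h1 h2 h3 h4
    refine h B hB hFg x h2 ?_ ?_
    · filter_upwards [h1, h3] with m h5 h6
      exact cone_iff.2 ⟨h5, (isPtP_spanC hX).1 h6⟩
    · filter_upwards [h4] with m h5 h6
      exact h5 ((isPtP_spanC hS).2 h6)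
  · intro h B hB hFg x h1 h2 h3
    refine h B hB hFg x ?_ h1 ?_ ?_
    · filter_upwards [h2] with m h4
      exact (cone_iff.1 h4).1
    · filter_upwards [h2] with m h4
      exact (isPtP_spanC hX).2 (cone_iff.1 h4).2
    · filter_upwards [h3] with m h4 h5
      exact h4 ((isPtP_spanC hS).1 h5)

theorem spDyn_eq (hF : ∀ e, IsForm (F e)) :
    SpDyn F = {x | x ≠ 0 ∧ x ∈ Zeros ℂ (dynForms (Set.range F))} := by
  apply Set.Subset.antisymm
  · rintro x ⟨hx, hx'⟩
    exact ⟨hx.1, hx' _ (dynForms_forms _) ((tow_iff hF (dynForms_forms _)).2 dyn_dynForms)⟩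
  · rintro x ⟨h0, hx⟩
    exact ⟨cone_iff.2 ⟨h0, (dyn_iff (forms_range hF)).1 (dyn_self (SX := Set.range F)) hx⟩,
      fun S hS hT => (dyn_iff hS).1 ((tow_iff hF hS).1 hT) hx⟩

/-- The sequences outside of the dynamical special set are eventually periodic. -/
theorem tow_spDyn (hF : ∀ e, IsForm (F e)) : TowersPeriodic F (SpDyn F) := by
  intro B hB x hx hX hZ
  refine (tow_iff hF (dynForms_forms _)).2 dyn_dynForms B hB x hx hX ?_
  filter_upwards [hX, hZ] with m h3 h4 h5
  apply h4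
  rw [spDyn_eq hF]
  exact ⟨h3.1, h5⟩

/-- monotonicity -/
theorem TowersPeriodic.mono {Z Z' : Set (Fin (n + 1) → ℂ)} (h : TowersPeriodic F Z)
    (hZ : ∀ x ∈ Cone F, x ∈ Z → x ∈ Z') : TowersPeriodic F Z' := by
  intro B hB x hx hX hX'
  refine h B hB x hx hX ?_
  filter_upwards [hX, hX'] with m h3 h4 h5
  exact h4 (hZ _ h3 h5)

theorem FieldsPeriodic.mono {Z Z' : Set (Fin (n + 1) → ℂ)} (h : FieldsPeriodic F Z)
    (hZ : ∀ x ∈ Cone F, x ∈ Z → x ∈ Z') : FieldsPeriodic F Z' := by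
  intro B hB hFg x hx hX hX'
  refine h B hB hFg x hx hX ?_
  filter_upwards [hX, hX'] with m h3 h4 h5
  exact h4 (hZ _ h3 h5)

theorem fields_of_tow {Z : Set (Fin (n + 1) → ℂ)} (h : TowersPeriodic F Z) :
    FieldsPeriodic F Z := by
  intro B hB hFg x hx
  exact h B (TowF.base hB hFg) x fun j => linRec_of_mem hB (hx j)

/-- **Lower bound.** -/
theorem gm_sub_dyn (hF : ∀ e, IsForm (F e)) : SpGm F ⊆ SpDyn F := by
  rintro x ⟨hx, hx'⟩
  refine ⟨hx, fun S hS hT G hG => ?_⟩
  refine hx' G (hS G hG) fun P hP t ht => ?_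
  have hd := rat_of_fldPer ((tow_iff hF hS).1 hT)
  have hnc : NonConst P := by
    by_contra hcon
    unfold NonConst at hcon
    push Not at hcon
    obtain ⟨a, b, ha, hb, hab⟩ := hP.nonconst
    have h1 := LinearIndependent.pair_iff.1 hab
    obtain ⟨j0, hj0⟩ := Function.ne_iff.1 (hP.ne b hb)
    have hj0' : (P j0).eval b ≠ 0 := hj0
    have h2 := h1 ((P j0).eval b) (-(P j0).eval a) (by
      funext j
      have h3 := hcon j j0 a b
      simp only [Pi.add_apply, Pi.smul_apply, smul_eq_mul, Pi.zero_apply]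
      linear_combination h3)
    exact hj0' h2.1
  have hall : ∀ u, IsPtP (RingHom.id ℂ) (Ideal.span (Set.range F)) (fun j => (P j).eval u) := by
    intro u
    rw [isPtP_spanC (forms_range hF)]
    rintro _ ⟨e, rfl⟩
    let q : Polynomial ℂ := aeval P (F e)
    have hq : ∀ u, q.eval u = eval (fun j => (P j).eval u) (F e) := by
      intro u
      have h1 := MvPolynomial.comp_aeval_apply (f := P) (Polynomial.aeval u) (F e)
      rw [Polynomial.coe_aeval_eq_eval] at h1
      rw [← aeval_eval]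
      exact h1
    have hq0 : q = 0 := by
      apply Polynomial.eq_zero_of_infinite_isRoot
      refine Set.Infinite.mono (s := {0}ᶜ) (fun u hu => ?_) (Set.finite_singleton 0).infinite_compl
      change q.eval u = 0
      rw [hq, ← aeval_eval]
      exact hP.mem u hu e
    rw [aeval_eval, ← hq, hq0, Polynomial.eval_zero]
  have h1 := hd P hall hnc t
  rw [isPtP_spanC hS] at h1
  exact h1 G hG

/-- **Upper bound.** -/
theorem dyn_sub_alg (hF : ∀ e, IsForm (F e)) : SpDyn F ⊆ SpAlg F := by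
  rintro x ⟨hx, hx'⟩
  refine ⟨hx, fun G hG hG' => ?_⟩
  let SZ : Set (MvPolynomial (Fin (n + 1)) ℂ) :=
    {G | IsForm G ∧ ∀ (K : Type) [Field K] [Algebra ℂ K] (w : ℕ) (y : Fin (n + 1) → K), 1 ≤ w →
      SubVar F K w y → ¬ GeneralType ℂ K w → val y G = 0}
  have hSZ : Forms SZ := fun G hG => hG.1
  have h1 : Dyn (Set.range F) SZ := by
    refine fldPer_of_allGT ?_
    intro K _ _ w y hw hdim hy hgen hyX hyZ
    by_contra hgt
    apply hyZ
    rw [isPtP_span hSZ]
    intro G hG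
    have h2 := (isPtP_span (forms_range hF)).1 hyX
    exact hG.2 K w y hw ⟨hy, fun e => h2 _ ⟨e, rfl⟩, hgen, hdim⟩ hgt
  exact hx' SZ hSZ ((tow_iff hF hSZ).2 h1) G ⟨hG, hG'⟩

/-- the classes with `SpAlg = SpGm` -/
theorem spDyn_of (hF : ∀ e, IsForm (F e)) (h : SpAlg F ⊆ SpGm F) : SpDyn F = SpGm F :=
  Set.Subset.antisymm ((dyn_sub_alg hF).trans h) (gm_sub_dyn hF)

/-- hyperbolic case -/
theorem fields_empty (hF : ∀ e, IsForm (F e)) :
    [FieldsPeriodic F ∅, TowersPeriodic F ∅, SpDyn F = ∅].TFAE := by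
  have h1 : Forms ({1} : Set (MvPolynomial (Fin (n + 1)) ℂ)) := by
    intro G hG
    rw [Set.mem_singleton_iff.1 hG]
    exact ⟨0, isHomogeneous_one _ _⟩
  have h2 : Zeros ℂ ({1} : Set (MvPolynomial (Fin (n + 1)) ℂ)) = ∅ := by
    rw [Set.eq_empty_iff_forall_notMem]
    intro x hx
    have h3 := hx 1 rfl
    rw [map_one] at h3
    exact one_ne_zero h3
  have h3 := tow_iff hF h1
  have h4 := fields_iff hF h1
  rw [h2] at h3 h4
  tfae_have 1 ↔ 2 := by rw [h3, h4]
  tfae_have 2 → 3 := by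
    intro h
    rw [Set.eq_empty_iff_forall_notMem]
    rintro x ⟨-, hx⟩
    have h5 := hx {1} h1 (by rw [h2]; exact h)
    rw [h2] at h5
    exact h5
  tfae_have 3 → 2 := by
    intro h
    have h5 := tow_spDyn hF
    rwa [h] at h5
  tfae_finish

theorem fields_of_all (hF : ∀ e, IsForm (F e))
    (h : ∀ (K : Type) [Field K] [Algebra ℂ K] (w : ℕ) (y : Fin (n + 1) → K), 1 ≤ w →
      SubVar F K w y → GeneralType ℂ K w) : SpDyn F = ∅ := by
  rw [Set.eq_empty_iff_forall_notMem]
  intro x hx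
  have h1 := (dyn_sub_alg hF hx).2 1 ⟨0, isHomogeneous_one _ _⟩
    fun K _ _ w y hw hy hgt => absurd (h K w y hw hy) hgt
  have h2 : val x (1 : MvPolynomial (Fin (n + 1)) ℂ) = 1 := map_one _
  rw [h2] at h1
  exact one_ne_zero h1

theorem no_gm_of_empty (hF : ∀ e, IsForm (F e)) (h : SpDyn F = ∅) : ∀ P, ¬ GmCurve F P := by
  intro P hP
  have h1 : (fun i => (P i).eval 1) ∈ SpGm F :=
    ⟨⟨hP.ne 1 one_ne_zero, hP.mem 1 one_ne_zero⟩, fun H _ hH => hH P hP 1 one_ne_zero⟩
  have h2 := gm_sub_dyn hF h1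
  rw [h] at h2
  exact h2

end Pool.Agent.X332.GS
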