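import Mathlib
import Pool.Agent.X332.GS.Gen
import Pool.Agent.X332.GS.Sand

/-!
The dynamical special set is the closure of the union of the subvarieties which contain generic
sequences over finitely generated fields of coefficients.
-/

set_option autoImplicit false

namespace Pool.Agent.X332.GS

open Filter Module MvPolynomial FF Pool.Agent.W602.GT Pool.Agent.TH143.HE
  Pool.Agent.TH143.TW Pool.Agent.TH143.DE Pool.Agent.TH143.GE Pool.Agent.X332.GT
open Pool.Agent.X332.TO

section

variable {N : ℕ}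

/-- the subvariety given by a point over an extension field -/
theorem exists_sub {K : Type} [Field K] [Algebra ℂ K] {Y : Fin (N + 1) → K} (hY0 : Y ≠ 0)
    (hc : ¬ ∃ (v : K) (c : Fin (N + 1) → ℂ), ∀ i, Y i = algebraMap ℂ K (c i) * v) :
    ∃ (w : ℕ) (y : Fin (N + 1) → coords ℂ Y), 1 ≤ w ∧ Algebra.trdeg ℂ (coords ℂ Y) = w ∧ y ≠ 0 ∧
      coords ℂ y = ⊤ ∧ ∀ G : MvPolynomial (Fin (N + 1)) ℂ, IsForm G →
        (W602.GT.val y G = 0 ↔ W602.GT.val Y G = 0) := by
  classical
  have hess : Algebra.EssFiniteType ℂ (coords ℂ Y) := by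
    apply IntermediateField.essFiniteType_iff.2
    apply IntermediateField.fg_adjoin_of_finite
    refine (Set.finite_range fun p : Fin (N + 1) × Fin (N + 1) => Y p.1 / Y p.2).subset ?_
    rintro _ ⟨i, j, -, rfl⟩
    exact ⟨(i, j), rfl⟩
  obtain ⟨i0, hi0⟩ : ∃ i0, Y i0 ≠ 0 := by
    by_contra hcon
    push Not at hcon
    exact hY0 (funext hcon)
  let y : Fin (N + 1) → coords ℂ Y := fun i =>
    ⟨Y i / Y i0, IntermediateField.subset_adjoin ℂ _ ⟨i, i0, hi0, rfl⟩⟩
  have hyv : ∀ i, (y i : K) = Y i / Y i0 := fun i => rfl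
  have hYy : Y = fun i => Y i0 * (y i : K) := by
    funext i
    rw [hyv, mul_div_cancel₀ _ hi0]
  have hy0 : y ≠ 0 := by
    intro h0
    have h1 := congrArg Subtype.val (congrFun h0 i0)
    rw [hyv, div_self hi0] at h1
    exact one_ne_zero h1
  have hpt : ∀ G : MvPolynomial (Fin (N + 1)) ℂ, IsForm G →
      (W602.GT.val y G = 0 ↔ W602.GT.val Y G = 0) := by
    rintro G ⟨d, hd⟩
    have h1 : aeval (fun i => (y i : K)) G = ((aeval y G : coords ℂ Y) : K) :=
      (MvPolynomial.comp_aeval_apply (f := y) (coords ℂ Y).val G).symm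
    have h2 : W602.GT.val Y G = Y i0 ^ d * aeval (fun i => (y i : K)) G := by
      have h3 := eval₂_smul_homog (algebraMap ℂ K) (Y i0) (fun i => (y i : K)) hd
      unfold W602.GT.val
      conv_lhs => rw [hYy]
      exact h3
    rw [h2, h1]
    constructor
    · intro h3
      unfold W602.GT.val at h3
      rw [h3]
      exact mul_zero _
    · intro h3
      exact Subtype.ext ((mul_eq_zero.1 h3).resolve_left (pow_ne_zero _ hi0))
  have hgen : coords ℂ y = ⊤ := by
    apply IntermediateField.map_injective (coords ℂ Y).val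
    rw [← AlgHom.fieldRange_eq_map, IntermediateField.fieldRange_val]
    unfold coords
    rw [IntermediateField.adjoin_map]
    apply le_antisymm
    · rw [IntermediateField.adjoin_le_iff]
      rintro _ ⟨_, ⟨i, j, hj, rfl⟩, rfl⟩
      have h1 : (coords ℂ Y).val (y i / y j) = Y i / Y j := by
        rw [map_div₀]
        change (Y i / Y i0) / (Y j / Y i0) = _
        rw [div_div_div_cancel_right₀ hi0]
      change (coords ℂ Y).val (y i / y j) ∈ _
      rw [h1]
      have hj0 : Y j ≠ 0 := by
        intro h0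
        apply hj
        apply Subtype.ext
        rw [hyv, h0, zero_div]
        rfl
      exact IntermediateField.subset_adjoin ℂ _ ⟨i, j, hj0, rfl⟩
    · rw [IntermediateField.adjoin_le_iff]
      rintro _ ⟨i, j, hj, rfl⟩
      have hj0 : y j ≠ 0 := by
        intro h0
        have h1 := congrArg Subtype.val h0
        rw [hyv] at h1
        exact (div_ne_zero hj hi0) h1
      have h1 : (coords ℂ Y).val (y i / y j) = Y i / Y j := by
        rw [map_div₀]
        change (Y i / Y i0) / (Y j / Y i0) = _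
        rw [div_div_div_cancel_right₀ hi0]
      rw [← h1]
      exact IntermediateField.subset_adjoin ℂ _ ⟨_, ⟨i, j, hj0, rfl⟩, rfl⟩
  obtain ⟨w, hw⟩ := trdeg_nat (coords ℂ Y)
  rcases Nat.eq_zero_or_pos w with h0 | hw0
  · exfalso
    apply hc
    rw [h0, Nat.cast_zero, _root_.trdeg_eq_zero_iff] at hw
    have h1 : ∀ z : coords ℂ Y, ∃ a : ℂ, algebraMap ℂ (coords ℂ Y) a = z := by
      intro z
      have h3 : IsAlgebraic ℂ z := hw.isAlgebraic z
      have h4 := IsAlgClosed.degree_eq_one_of_irreducible ℂ (minpoly.irreducible h3.isIntegral)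
      exact minpoly.mem_range_of_degree_eq_one ℂ _ h4
    choose a ha using h1
    refine ⟨Y i0, fun i => a (y i), fun i => ?_⟩
    have h2 := congrArg Subtype.val (ha (y i))
    have h3 : algebraMap ℂ K (a (y i)) = (y i : K) := h2
    rw [h3, hyv, div_mul_cancel₀ _ hi0]
  · exact ⟨w, y, hw0, hw, hy0, hgen, hpt⟩

/-- a generic sequence on a variety of positive dimension is not eventually periodic -/
theorem not_per {K : Type} [Field K] [Algebra ℂ K] {w : ℕ} (hw : 1 ≤ w) {y : Fin (N + 1) → K}
    (hy : y ≠ 0) (hgen : coords ℂ y = ⊤) (hdim : Algebra.trdeg ℂ K = w)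
    {x : ℕ → Fin (N + 1) → ℂ} (hx : GenSeq y x) : ¬ Per x := by
  classical
  rintro ⟨k, m0, hk, hper⟩
  obtain ⟨m1, hm1⟩ := eventually_atTop.1 (hx.ne hy)
  let M0 := max m0 m1
  have hM0 : ∀ m, M0 ≤ m → x m ≠ 0 := fun m hm => hm1 m ((le_max_right _ _).trans hm)
  have hper' : ∀ m, M0 ≤ m → ∀ i j, x (m + k) i * x m j = x (m + k) j * x m i := fun m hm =>
    hper m ((le_max_left _ _).trans hm)
  -- linear forms
  have hlin : ∀ p : Fin (N + 1) → ℂ, p ≠ 0 → ∃ ℓ : MvPolynomial (Fin (N + 1)) ℂ,
      IsForm ℓ ∧ W602.GT.val y ℓ ≠ 0 ∧ ∀ v : Fin (N + 1) → ℂ,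
        (∀ i j, v i * p j = v j * p i) → eval v ℓ = 0 := by
    intro p hp
    by_contra hcon
    push Not at hcon
    have h1 : ∀ i j, y i * algebraMap ℂ K (p j) = y j * algebraMap ℂ K (p i) := by
      intro i j
      by_contra hne
      have hl : IsForm (C (p j) * X i - C (p i) * X j : MvPolynomial (Fin (N + 1)) ℂ) := by
        refine ⟨1, ?_⟩
        have e1 := (isHomogeneous_C (Fin (N + 1)) (p j)).mul (isHomogeneous_X ℂ i)
        have e2 := (isHomogeneous_C (Fin (N + 1)) (p i)).mul (isHomogeneous_X ℂ j)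
        rw [zero_add] at e1 e2
        exact e1.sub e2
      obtain ⟨v, hv, hv'⟩ := hcon _ hl (by
        unfold W602.GT.val
        rw [map_sub, map_mul, map_mul, aeval_C, aeval_C, aeval_X, aeval_X]
        intro h0
        apply hne
        linear_combination h0)
      apply hv'
      rw [map_sub, map_mul, map_mul, eval_C, eval_C, eval_X, eval_X]
      linear_combination hv i j
    obtain ⟨j0, hj0⟩ := Function.ne_iff.1 hp
    have hj0' : p j0 ≠ 0 := hj0
    -- all ratios are constant
    have hy' : ∀ i, y i = algebraMap ℂ K (p i / p j0) * y j0 := by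
      intro i
      have h2 := h1 i j0
      have h3 : algebraMap ℂ K (p j0) ≠ 0 := fun h => hj0' ((map_eq_zero_iff _
        (algebraMap ℂ K).injective).1 h)
      rw [map_div₀, div_mul_eq_mul_div, eq_div_iff h3, h2, mul_comm]
    have hbot : coords ℂ y = ⊥ := by
      apply le_antisymm _ bot_le
      unfold coords
      rw [IntermediateField.adjoin_le_iff]
      rintro _ ⟨i, j, hj, rfl⟩
      have h2 := hy' i
      have h3 := hy' j
      have h4 : y j0 ≠ 0 := by
        intro h0
        apply hj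
        rw [h3, h0, mul_zero]
      rw [h2, h3, mul_div_mul_right _ _ h4, ← map_div₀]
      exact IntermediateField.algebraMap_mem _ _
    rw [hbot] at hgen
    have h5 : Algebra.IsAlgebraic ℂ K := by
      refine ⟨fun z => ?_⟩
      have h6 : z ∈ (⊥ : IntermediateField ℂ K) := by
        rw [hgen]
        exact IntermediateField.mem_top
      obtain ⟨a, rfl⟩ := IntermediateField.mem_bot.1 h6
      exact isAlgebraic_algebraMap a
    have h7 := (_root_.trdeg_eq_zero_iff (R := ℂ) (A := K)).2 h5
    rw [hdim] at h7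
    have h8 : w = 0 := by exact_mod_cast h7
    omega
  choose! ℓ hℓ1 hℓ2 hℓ3 using hlin
  have hne : ∀ r, x (M0 + r) ≠ 0 := fun r => hM0 _ (Nat.le_add_right _ _)
  -- periodicity
  have hpp : ∀ q r i j, x (M0 + r + q * k) i * x (M0 + r) j = x (M0 + r + q * k) j * x (M0 + r) i := by
    intro q
    induction q with
    | zero =>
      intro r i j
      rw [zero_mul, add_zero, mul_comm]
    | succ q ih =>
      intro r i j
      have e1 : M0 + r + (q + 1) * k = M0 + r + q * k + k := by ring
      rw [e1]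
      have h1 := hper' (M0 + r + q * k) (by omega)
      obtain ⟨l, hl⟩ := Function.ne_iff.1 (hM0 (M0 + r + q * k) (by omega))
      have hl' : x (M0 + r + q * k) l ≠ 0 := hl
      apply mul_right_cancel₀ hl'
      have h2 := h1 i l
      have h3 := h1 j l
      have h4 := ih r i j
      calc x (M0 + r + q * k + k) i * x (M0 + r) j * x (M0 + r + q * k) l
          = (x (M0 + r + q * k + k) i * x (M0 + r + q * k) l) * x (M0 + r) j := by ring
        _ = x (M0 + r + q * k + k) l * (x (M0 + r + q * k) i * x (M0 + r) j) := by rw [h2]; ring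
        _ = (x (M0 + r + q * k + k) l * x (M0 + r + q * k) j) * x (M0 + r) i := by rw [h4]; ring
        _ = x (M0 + r + q * k + k) j * x (M0 + r) i * x (M0 + r + q * k) l := by rw [← h3]; ring
  let P : MvPolynomial (Fin (N + 1)) ℂ := ∏ r ∈ Finset.range k, ℓ (x (M0 + r))
  have hP : IsForm P := by
    choose! d hd using hℓ1
    exact ⟨_, IsHomogeneous.prod _ _ (fun r => d (x (M0 + r))) fun r _ => hd _ (hne r)⟩
  have hP0 : W602.GT.val y P ≠ 0 := by
    unfold W602.GT.val
    rw [map_prod]
    exact Finset.prod_ne_zero_iff.2 fun r _ => hℓ2 _ (hne r)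
  obtain ⟨m, h1, h2⟩ := (((hx P hP).2 hP0).and (eventually_ge_atTop M0)).exists
  apply h1
  rw [map_prod]
  have h3 : (m - M0) % k ∈ Finset.range k := Finset.mem_range.2 (Nat.mod_lt _ hk)
  refine Finset.prod_eq_zero h3 ?_
  refine hℓ3 _ (hne _) _ fun i j => ?_
  have h4 := hpp ((m - M0) / k) ((m - M0) % k) i j
  have h5 : M0 + (m - M0) % k + (m - M0) / k * k = m := by
    have := Nat.mod_add_div' (m - M0) k
    omega
  rwa [h5] at h4

/-- a closed set which does not contain the terms of a sequence -/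
theorem exists_ne_form {S : Set (MvPolynomial (Fin (N + 1)) ℂ)}
    {B : Subalgebra ℂ (ℕ → ℂ)} (hB : CoefField B) {x : ℕ → Fin (N + 1) → ℂ}
    (hx : ∀ j, (fun m => x m j) ∈ B) (hZ : ∀ᶠ m in atTop, x m ∉ Zeros ℂ S) :
    ∃ G ∈ S, ∀ᶠ m in atTop, eval (x m) G ≠ 0 := by
  classical
  obtain ⟨T, hTS, hT⟩ := (Submodule.fg_span_iff_fg_span_finset_subset S).1
    (IsNoetherian.noetherian (Submodule.span (MvPolynomial (Fin (N + 1)) ℂ) S))
  have hex : ∃ G ∈ T, ∀ᶠ m in atTop, eval (x m) G ≠ 0 := by
    by_contra hcon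
    push Not at hcon
    have h1 : ∀ᶠ m in atTop, ∀ G ∈ T, eval (x m) G = 0 := by
      rw [Finset.eventually_all]
      intro G hG
      rcases hB.dich _ (eval_mem hx G) with h | h
      · exact h
      · exact absurd h (hcon G hG)
    obtain ⟨m, hm1, hm2⟩ := (h1.and hZ).exists
    apply hm2
    have h2 : Submodule.span (MvPolynomial (Fin (N + 1)) ℂ) S ≤
        RingHom.ker (eval (x m) : MvPolynomial (Fin (N + 1)) ℂ →+* ℂ) := by
      rw [hT]
      exact Submodule.span_le.2 fun G hG => hm1 G hG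
    intro G hG
    rw [aeval_eval]
    exact h2 (Submodule.subset_span hG)
  obtain ⟨G, hG, h⟩ := hex
  exact ⟨G, hTS hG, h⟩

/-- the sequence over a finitely generated field is generic on a subvariety -/
theorem exists_gen {B : Subalgebra ℂ (ℕ → ℂ)} (hB : CoefField B) {x : ℕ → Fin (N + 1) → ℂ}
    (hx : ∀ j, (fun m => x m j) ∈ B) (hper : ¬ Per x) :
    ∃ (K : Type) (_ : Field K) (_ : Algebra ℂ K) (w : ℕ) (y : Fin (N + 1) → K), 1 ≤ w ∧
      Algebra.trdeg ℂ K = w ∧ y ≠ 0 ∧ coords ℂ y = ⊤ ∧ GenSeq y x := by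
  classical
  let z : Fin (N + 1) → KB B hB := fun j => cK hB ⟨_, hx j⟩
  have hz : ∀ G : MvPolynomial (Fin (N + 1)) ℂ, jK hB (aeval z G) =
      gg fun m => eval (x m) G := by
    intro G
    have h2 := MvPolynomial.comp_aeval_apply (f := z) (jK hB) G
    rw [h2]
    have h3 : (fun i => jK hB (z i)) = fun i => gg fun m => x m i := by
      funext i
      exact jK_cK hB _
    rw [h3]
    have h4 := MvPolynomial.comp_aeval_apply (f := fun i => (fun m => x m i : ℕ → ℂ)) gg G
    rw [← h4]
    congr 1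
    funext m
    have h7 := MvPolynomial.comp_aeval_apply (f := fun i => (fun m => x m i : ℕ → ℂ))
      (Pi.evalAlgHom ℂ (fun _ : ℕ => ℂ) m) G
    have h8 : (aeval (fun i => (fun m => x m i : ℕ → ℂ)) G : ℕ → ℂ) m =
      aeval (fun i => x m i) G := h7
    rw [h8, MvPolynomial.aeval_eq_eval]
  have hc : ¬ ∃ (v : KB B hB) (c : Fin (N + 1) → ℂ), ∀ i, z i = algebraMap ℂ (KB B hB) (c i) * v :=
    fun h => hper (per_const (j := jK hB) (fun i => jK_cK hB _) h)
  have hz0 : z ≠ 0 := by
    intro h0
    exact hc ⟨0, 0, fun i => by rw [mul_zero]; exact congrFun h0 i⟩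
  obtain ⟨w, y, hw, hdim, hy, hgen, hyz⟩ := exists_sub hz0 hc
  refine ⟨coords ℂ z, inferInstance, inferInstance, w, y, hw, hdim, hy, hgen, fun G hG => ?_⟩
  have h1 : W602.GT.val z G = 0 ↔ ∀ᶠ m in atTop, eval (x m) G = 0 := by
    rw [← gg_zero, ← hz]
    exact (map_eq_zero_iff _ (jK_inj hB)).symm
  rw [← h1, ← hyz G hG]
  refine ⟨id, fun h0 => ?_⟩
  rcases hB.dich _ (eval_mem hx G) with h | h
  · exact absurd ((hyz G hG).2 (h1.2 h)) h0
  · exact h

end

variable {n : ℕ} {ι : Type} {F : ι → MvPolynomial (Fin (n + 1)) ℂ}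

/-- The variety with the generic point `y` contains a generic sequence of points with coordinates in
a finitely generated field of coefficients. -/
def HasGenSeq {K : Type} [Field K] [Algebra ℂ K] (y : Fin (n + 1) → K) : Prop :=
  ∃ (B : Subalgebra ℂ (ℕ → ℂ)) (x : ℕ → Fin (n + 1) → ℂ), CoefField B ∧ FinGen B ∧
    (∀ j, (fun m => x m j) ∈ B) ∧ GenSeq y x

/-- The closure of the union of the subvarieties of positive dimension of `X = {F = 0}` which contain
generic sequences of points with coordinates in finitely generated fields of coefficients. -/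
def SpGen (F : ι → MvPolynomial (Fin (n + 1)) ℂ) : Set (Fin (n + 1) → ℂ) :=
  {x | x ∈ Cone F ∧ ∀ G : MvPolynomial (Fin (n + 1)) ℂ, IsForm G →
    (∀ (K : Type) [Field K] [Algebra ℂ K] (w : ℕ) (y : Fin (n + 1) → K), 1 ≤ w →
      SubVar F K w y → HasGenSeq y → W602.GT.val y G = 0) → W602.GT.val x G = 0}

theorem spDyn_eq_gen (hF : ∀ e, IsForm (F e)) : SpDyn F = SpGen F := by
  apply Set.Subset.antisymm
  · rintro x ⟨hx, hx'⟩
    refine ⟨hx, fun G hG hG' => ?_⟩
    let S : Set (MvPolynomial (Fin (n + 1)) ℂ) := {G | IsForm G ∧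
      ∀ (K : Type) [Field K] [Algebra ℂ K] (w : ℕ) (y : Fin (n + 1) → K), 1 ≤ w →
        SubVar F K w y → HasGenSeq y → W602.GT.val y G = 0}
    have hS : Forms S := fun G hG => hG.1
    refine hx' S hS ((tow_iff hF hS).2 ?_) G ⟨hG, hG'⟩
    intro B hB hFg x hne hxB hX hZ
    by_contra hper
    have hZ' : ∀ᶠ m in atTop, x m ∉ Zeros ℂ S := by
      filter_upwards [hZ] with m hm h1
      exact hm ((isPtP_spanC hS).2 h1)
    obtain ⟨G0, hG0, hG1⟩ := exists_ne_form hB hxB hZ'
    obtain ⟨K, _, _, w, y, hw, hdim, hy, hgen, hgs⟩ := exists_gen hB hxB hper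
    have h1 : SubVar F K w y := by
      refine ⟨hy, fun e => ?_, hgen, hdim⟩
      by_contra h0
      obtain ⟨m, h2, h3⟩ := (((hgs (F e) (hF e)).2 h0).and hX).exists
      rw [isPtP_spanC (forms_range hF)] at h3
      apply h2
      rw [← aeval_eval]
      exact h3 _ ⟨e, rfl⟩
    have h2 := hG0.2 K w y hw h1 ⟨B, x, hB, hFg, hxB, hgs⟩
    obtain ⟨m, h3, h4⟩ := (((hgs G0 hG0.1).1 h2).and hG1).exists
    exact h4 h3
  · rintro x ⟨hx, hx'⟩
    refine ⟨hx, fun S hS hT G hG => ?_⟩
    refine hx' G (hS G hG) ?_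
    rintro K _ _ w y hw ⟨hy, hmem, hgen, hdim⟩ ⟨B, z, hB, hFg, hzB, hz⟩
    by_contra h0
    refine not_per hw hy hgen hdim hz (((tow_iff hF hS).1 hT) B hB hFg z (hz.ne hy) hzB ?_ ?_)
    · -- in `X`
      have h1 : ∀ᶠ m in atTop, z m ∈ Zeros ℂ (Set.range F) := by
        by_contra hcon
        have h2 := hB
        -- noetherian argument
        obtain ⟨T, hTS, hT⟩ := (Submodule.fg_span_iff_fg_span_finset_subset (Set.range F)).1
          (IsNoetherian.noetherian (Submodule.span (MvPolynomial (Fin (n + 1)) ℂ) (Set.range F)))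
        apply hcon
        have h3 : ∀ᶠ m in atTop, ∀ G ∈ T, eval (z m) G = 0 := by
          rw [Finset.eventually_all]
          intro G hG
          obtain ⟨e, rfl⟩ := hTS hG
          exact (hz (F e) (hF e)).1 (hmem e)
        filter_upwards [h3] with m hm
        have h4 : Submodule.span (MvPolynomial (Fin (n + 1)) ℂ) (Set.range F) ≤
            RingHom.ker (eval (z m) : MvPolynomial (Fin (n + 1)) ℂ →+* ℂ) := by
          rw [hT]
          exact Submodule.span_le.2 fun G hG => hm G hG
        intro G hG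
        rw [aeval_eval]
        exact h4 (Submodule.subset_span hG)
      filter_upwards [h1] with m hm
      exact (isPtP_spanC (forms_range hF)).2 hm
    · filter_upwards [(hz G (hS G hG)).2 h0] with m hm h1
      rw [isPtP_spanC hS] at h1
      apply hm
      rw [← aeval_eval]
      exact h1 G hG

end Pool.Agent.X332.GS
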