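import Mathlib
import Pool.Agent.H938R2.Descartes

/-!
Values of entire functions at the multiples of a very general number.
-/

set_option autoImplicit false

namespace Pool.Agent.X332.GS

open Filter Topology

/-- generalized Vandermonde determinants -/
theorem gvand {D : ℕ} (a : Fin D → ℕ) (ha : Function.Injective a) (m : Fin D → ℕ)
    (hm : Function.Injective m) (hpos : ∀ j, 0 < m j) :
    (Matrix.of fun i j => ((m j : ℂ)) ^ (a i)).det ≠ 0 := by
  classical
  intro h
  obtain ⟨v, hv0, hv⟩ := Matrix.exists_vecMul_eq_zero_iff.2 h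
  let f : Polynomial ℂ := ∑ i, Polynomial.monomial (a i) (v i)
  have hcoeff : ∀ i, f.coeff (a i) = v i := by
    intro i
    simp only [f, Polynomial.finsetSum_coeff, Polynomial.coeff_monomial]
    rw [Finset.sum_eq_single i]
    · rw [if_pos rfl]
    · intro j _ hj
      rw [if_neg fun h => hj (ha h)]
    · intro h
      exact absurd (Finset.mem_univ _) h
  have hsupp : f.support ⊆ Finset.univ.image a := by
    intro k hk
    rw [Polynomial.mem_support_iff] at hk
    by_contra hcon
    apply hk
    simp only [f, Polynomial.finsetSum_coeff, Polynomial.coeff_monomial]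
    refine Finset.sum_eq_zero fun i _ => ?_
    rw [if_neg]
    intro h2
    exact hcon (Finset.mem_image.2 ⟨i, Finset.mem_univ _, h2⟩)
  have hf0 : f = 0 := by
    refine Pool.Agent.H938R2.complex_fewnomial (ι := Fin D) (fun j => (m j : ℝ))
      (fun i j hij => hm (Nat.cast_injective hij)) (fun j => Nat.cast_pos.2 (hpos j))
      (fun _ => 1) f (fun j => ?_) ?_
    · rw [pow_one, Polynomial.dvd_iff_isRoot]
      have h1 := congrFun hv j
      simp only [Matrix.vecMul, dotProduct, Matrix.of_apply, Pi.zero_apply] at h1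
      change f.eval _ = 0
      simp only [f, Polynomial.eval_finsetSum, Polynomial.eval_monomial]
      rw [← h1]
      simp
    · rw [Finset.sum_const, Finset.card_univ, Fintype.card_fin, smul_eq_mul, mul_one]
      refine (Finset.card_le_card hsupp).trans ?_
      exact (Finset.card_image_le).trans (by rw [Finset.card_univ, Fintype.card_fin])
  apply hv0
  funext i
  rw [← hcoeff i, hf0, Polynomial.coeff_zero]
  rfl

theorem ev_ne {a : ℂ → ℂ} (ha : Differentiable ℂ a) (hne : a ≠ 0) (c : ℂ) :
    ∀ᶠ z in 𝓝[≠] c, a z ≠ 0 := by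
  rcases (ha.analyticAt c).eventually_eq_zero_or_eventually_ne_zero with h | h
  · exfalso
    obtain ⟨w, hw⟩ := Function.ne_iff.1 hne
    have h1 : AnalyticOnNhd ℂ a Set.univ := fun z _ => ha.analyticAt z
    exact hw (h1.eqOn_zero_of_preconnected_of_eventuallyEq_zero isPreconnected_univ
      (Set.mem_univ c) h (Set.mem_univ w))
  · exact h

theorem countable_zeros {a : ℂ → ℂ} (ha : Differentiable ℂ a) (hne : a ≠ 0) :
    {x | a x = 0}.Countable := by
  apply (HereditarilyLindelofSpace.isLindelof _).countable_of_isDiscrete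
  rw [isDiscrete_iff_nhdsNE]
  intro c _
  rw [← _root_.disjoint_iff, Filter.disjoint_principal_right]
  filter_upwards [ev_ne ha hne c] with x hx
  exact hx

theorem ord_fin {a : ℂ → ℂ} (ha : Differentiable ℂ a) (hne : a ≠ 0) (c : ℂ) :
    ∃ k : ℕ, analyticOrderAt a c = (k : ℕ∞) := by
  have h1 : analyticOrderAt a c ≠ ⊤ := by
    rw [Ne, analyticOrderAt_eq_top]
    intro h
    have h2 := ev_ne ha hne c
    obtain ⟨z, hz⟩ := (h2.and (h.filter_mono nhdsWithin_le_nhds)).exists
    exact hz.1 hz.2
  exact ⟨_, (ENat.natCast_toNat h1).symm⟩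

/-- a basis with increasing orders at zero -/
theorem exists_orders (D : ℕ) : ∀ (V : Submodule ℂ (ℂ → ℂ)) [FiniteDimensional ℂ V],
    (∀ g ∈ V, Differentiable ℂ g) → Module.finrank ℂ V = D →
    ∃ (a : Fin D → ℕ) (g : Fin D → ℂ → ℂ), Function.Injective a ∧ (∀ i, g i ∈ V) ∧
      ∀ i, analyticOrderAt (g i) 0 = a i := by
  induction D with
  | zero =>
    intro V _ _ _
    exact ⟨Fin.elim0, Fin.elim0, fun i => i.elim0, fun i => i.elim0, fun i => i.elim0⟩
  | succ D ih =>
    intro V _ hV hD
    classical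
    have hex : ∃ n : ℕ, ∃ g ∈ V, analyticOrderAt g 0 = (n : ℕ∞) := by
      have h1 : V ≠ ⊥ := by
        rintro rfl
        rw [finrank_bot] at hD
        omega
      obtain ⟨g, hg, hg0⟩ := (Submodule.ne_bot_iff _).1 h1
      obtain ⟨n, hn⟩ := ord_fin (hV g hg) hg0 0
      exact ⟨n, g, hg, hn⟩
    obtain ⟨g0, hg0, hord⟩ := Nat.find_spec hex
    set n := Nat.find hex with hn
    have hmin : ∀ g ∈ V, (n : ℕ∞) ≤ analyticOrderAt g 0 := by
      intro g hg
      by_cases h0 : analyticOrderAt g 0 = ⊤
      · rw [h0]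
        exact le_top
      · have h1 : analyticOrderAt g 0 = ((analyticOrderAt g 0).toNat : ℕ∞) :=
          (ENat.natCast_toNat h0).symm
        rw [h1]
        exact_mod_cast Nat.find_min' hex ⟨g, hg, h1⟩
    let L : V →ₗ[ℂ] ℂ :=
      { toFun := fun g => iteratedDeriv n (g : ℂ → ℂ) 0
        map_add' := fun f g => by
          change iteratedDeriv n ((f : ℂ → ℂ) + (g : ℂ → ℂ)) 0 = _
          exact iteratedDeriv_add ((hV f f.2).contDiff.contDiffAt) ((hV g g.2).contDiff.contDiffAt)
        map_smul' := fun c g => by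
          change iteratedDeriv n (c • (g : ℂ → ℂ)) 0 = _
          rw [iteratedDeriv_const_smul_field]
          rfl }
    have hL : ∀ g : V, L g = 0 → ((n + 1 : ℕ) : ℕ∞) ≤ analyticOrderAt (g : ℂ → ℂ) 0 := by
      intro g hg
      have ha := (hV g g.2).analyticAt 0
      rw [natCast_le_analyticOrderAt_iff_iteratedDeriv_eq_zero ha]
      intro i hi
      rcases Nat.lt_succ_iff_lt_or_eq.1 hi with h | rfl
      · exact (natCast_le_analyticOrderAt_iff_iteratedDeriv_eq_zero ha).1 (hmin g g.2) i h
      · exact hg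
    have hL0 : L ≠ 0 := by
      intro h0
      have h1 := hL ⟨g0, hg0⟩ (by rw [h0]; rfl)
      change ((n + 1 : ℕ) : ℕ∞) ≤ analyticOrderAt g0 0 at h1
      rw [hord] at h1
      have h2 : n + 1 ≤ n := by exact_mod_cast h1
      omega
    have hker : Module.finrank ℂ (LinearMap.ker L) = D := by
      have h1 := LinearMap.finrank_range_add_finrank_ker L
      have h2 : LinearMap.range L = ⊤ := LinearMap.range_eq_top.2 (L.surjective hL0)
      rw [h2, finrank_top, Module.finrank_self, hD] at h1
      omega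
    let V' : Submodule ℂ (ℂ → ℂ) := (LinearMap.ker L).map V.subtype
    have hV' : ∀ g ∈ V', g ∈ V ∧ ((n + 1 : ℕ) : ℕ∞) ≤ analyticOrderAt g 0 := by
      rintro _ ⟨g, hg, rfl⟩
      exact ⟨g.2, hL g hg⟩
    have hfr : Module.finrank ℂ V' = D := by
      rw [← hker]
      exact (LinearEquiv.finrank_eq (Submodule.equivMapOfInjective V.subtype
        V.injective_subtype (LinearMap.ker L))).symm
    obtain ⟨a, g, ha, hg, hgo⟩ := ih V' (fun g hg => hV g (hV' g hg).1) hfr
    have hlt : ∀ i, n < a i := by
      intro i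
      have h1 := (hV' _ (hg i)).2
      rw [hgo i] at h1
      exact_mod_cast h1
    refine ⟨Fin.cons n a, Fin.cons g0 g, ?_, ?_, ?_⟩
    · rw [Fin.cons_injective_iff]
      refine ⟨?_, ha⟩
      rintro ⟨i, hi⟩
      exact absurd hi (hlt i).ne'
    · intro i
      refine Fin.cases ?_ (fun i => ?_) i
      · exact hg0
      · exact (hV' _ (hg i)).1
    · intro i
      refine Fin.cases ?_ (fun i => ?_) i
      · exact hord
      · exact hgo i

end Pool.Agent.X332.GS
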