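import Mathlib
import Pool.Agent.X332.GS.Kl

/-!
Finite-dimensional spaces of entire functions: a function which vanishes at infinitely many multiples
of a very general number is zero.
-/

set_option autoImplicit false

namespace Pool.Agent.X332.GS

open Filter Topology

variable {D : ℕ}

theorem diff_det {f : Fin D → ℂ → ℂ} (hf : ∀ i, Differentiable ℂ (f i)) (m : Fin D → ℕ) :
    Differentiable ℂ fun t => (Matrix.of fun i j => f i ((m j : ℂ) * t)).det := by
  have h1 : (fun t => (Matrix.of fun i j => f i ((m j : ℂ) * t)).det) =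
      fun t => ∑ σ : Equiv.Perm (Fin D), ((Equiv.Perm.sign σ : ℤ) : ℂ) *
        ∏ i, f (σ i) ((m i : ℂ) * t) := by
    funext t
    rw [Matrix.det_apply']
    rfl
  rw [h1]
  refine Differentiable.fun_sum fun σ _ => ?_
  refine Differentiable.const_mul ?_ _
  refine Differentiable.fun_finsetProd fun i _ => ?_
  exact (hf (σ i)).comp (differentiable_id.const_mul _)

/-- the determinants are not identically zero -/
theorem det_ne {V : Submodule ℂ (ℂ → ℂ)} [FiniteDimensional ℂ V]
    (hV : ∀ g ∈ V, Differentiable ℂ g) (hD : Module.finrank ℂ V = D)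
    (b : Module.Basis (Fin D) ℂ V) (m : Fin D → ℕ) (hm : Function.Injective m)
    (hpos : ∀ j, 0 < m j) :
    (fun t => (Matrix.of fun i j => (b i : ℂ → ℂ) ((m j : ℂ) * t)).det) ≠ 0 := by
  classical
  intro h0
  obtain ⟨a, g, ha, hg, hgo⟩ := exists_orders D V hV hD
  -- the determinants of the new basis
  have hP : ∀ i, ∃ c : Fin D → ℂ, g i = fun z => ∑ k, c k * (b k : ℂ → ℂ) z := by
    intro i
    refine ⟨fun k => b.repr ⟨g i, hg i⟩ k, ?_⟩
    have h1 := congrArg (fun v : V => (v : ℂ → ℂ)) (b.sum_repr ⟨g i, hg i⟩)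
    funext z
    have h2 := congrFun h1 z
    simp only [Submodule.coe_sum, Submodule.coe_smul, Finset.sum_apply, Pi.smul_apply,
      smul_eq_mul] at h2
    exact h2.symm
  choose c hc using hP
  have hdet : ∀ t, (Matrix.of fun i j => g i ((m j : ℂ) * t)).det = 0 := by
    intro t
    have h1 : (Matrix.of fun i j => g i ((m j : ℂ) * t)) =
        (Matrix.of c) * (Matrix.of fun i j => (b i : ℂ → ℂ) ((m j : ℂ) * t)) := by
      ext i j
      rw [Matrix.mul_apply, Matrix.of_apply, hc i]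
      rfl
    have h2 : (Matrix.of fun i j => (b i : ℂ → ℂ) ((m j : ℂ) * t)).det = 0 := congrFun h0 t
    rw [h1, Matrix.det_mul, h2, mul_zero]
  -- local form
  have hloc : ∀ i, ∃ h : ℂ → ℂ, ContinuousAt h 0 ∧ h 0 ≠ 0 ∧
      ∀ᶠ z in 𝓝 (0 : ℂ), g i z = z ^ (a i) * h z := by
    intro i
    have h1 := ((hV _ (hg i)).analyticAt 0).analyticOrderAt_eq_natCast.1 (hgo i)
    obtain ⟨h, h2, h3, h4⟩ := h1
    refine ⟨h, h2.continuousAt, h3, ?_⟩
    filter_upwards [h4] with z hz
    rw [hz, sub_zero, smul_eq_mul]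
  choose h hcont hne heq using hloc
  have hev : ∀ᶠ t in 𝓝 (0 : ℂ), ∀ i j, g i ((m j : ℂ) * t) =
      ((m j : ℂ) * t) ^ (a i) * h i ((m j : ℂ) * t) := by
    rw [eventually_all]
    intro i
    rw [eventually_all]
    intro j
    have h1 : Tendsto (fun t : ℂ => (m j : ℂ) * t) (𝓝 0) (𝓝 0) := by
      have h2 := (continuous_const_mul (m j : ℂ)).tendsto 0
      rwa [mul_zero] at h2
    exact h1.eventually (heq i)
  let Φ : ℂ → ℂ := fun t => (Matrix.of fun i j => (m j : ℂ) ^ (a i) * h i ((m j : ℂ) * t)).det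
  have hfac : ∀ᶠ t in 𝓝[≠] (0 : ℂ), Φ t = 0 := by
    have h1 : ∀ᶠ t : ℂ in 𝓝[≠] (0 : ℂ), t ≠ 0 := eventually_mem_nhdsWithin
    filter_upwards [hev.filter_mono nhdsWithin_le_nhds, h1] with t ht ht0
    have h2 : (Matrix.of fun i j => g i ((m j : ℂ) * t)) =
        (Matrix.diagonal fun i => t ^ (a i)) *
          (Matrix.of fun i j => (m j : ℂ) ^ (a i) * h i ((m j : ℂ) * t)) := by
      ext i j
      rw [Matrix.diagonal_mul, Matrix.of_apply, Matrix.of_apply, ht i j]
      ring
    have h3 := hdet t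
    rw [h2, Matrix.det_mul, Matrix.det_diagonal] at h3
    exact (mul_eq_zero.1 h3).resolve_left
      (Finset.prod_ne_zero_iff.2 fun i _ => pow_ne_zero _ ht0)
  have hΦc : ContinuousAt Φ 0 := by
    have h1 : Φ = fun t => ∑ σ : Equiv.Perm (Fin D), ((Equiv.Perm.sign σ : ℤ) : ℂ) *
        ∏ i, ((m i : ℂ) ^ (a (σ i)) * h (σ i) ((m i : ℂ) * t)) := by
      funext t
      change (Matrix.of fun i j => (m j : ℂ) ^ (a i) * h i ((m j : ℂ) * t)).det = _
      rw [Matrix.det_apply']
      rfl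
    rw [h1]
    refine tendsto_finsetSum _ fun σ _ => ?_
    refine Tendsto.const_mul _ ?_
    refine tendsto_finsetProd _ fun i _ => ?_
    refine Tendsto.const_mul _ ?_
    have h2 : ContinuousAt (fun t : ℂ => (m i : ℂ) * t) 0 := (continuous_const_mul _).continuousAt
    have h3 : ContinuousAt (h (σ i)) ((fun t : ℂ => (m i : ℂ) * t) 0) := by
      simp only [mul_zero]
      exact hcont (σ i)
    exact ContinuousAt.comp (f := fun t : ℂ => (m i : ℂ) * t) h3 h2
  have hΦ0 : Φ 0 = 0 := by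
    have h1 : Tendsto Φ (𝓝[≠] 0) (𝓝 (Φ 0)) := hΦc.tendsto.mono_left nhdsWithin_le_nhds
    have h2 : Tendsto Φ (𝓝[≠] 0) (𝓝 0) :=
      tendsto_const_nhds.congr' (hfac.mono fun t ht => ht.symm)
    exact tendsto_nhds_unique h1 h2
  have h1 : Φ 0 = (∏ i, h i 0) * (Matrix.of fun i j => ((m j : ℂ)) ^ (a i)).det := by
    have h2 : (Matrix.of fun i j => (m j : ℂ) ^ (a i) * h i ((m j : ℂ) * 0)) =
        (Matrix.diagonal fun i => h i 0) * (Matrix.of fun i j => ((m j : ℂ)) ^ (a i)) := by
      ext i j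
      rw [Matrix.diagonal_mul, Matrix.of_apply, Matrix.of_apply, mul_zero]
      ring
    change (Matrix.of fun i j => (m j : ℂ) ^ (a i) * h i ((m j : ℂ) * 0)).det = _
    rw [h2, Matrix.det_mul, Matrix.det_diagonal]
  rw [h1] at hΦ0
  exact mul_ne_zero (Finset.prod_ne_zero_iff.2 fun i _ => hne i) (gvand a ha m hm hpos) hΦ0

/-- **Very general numbers.** -/
theorem exists_countable {V : Submodule ℂ (ℂ → ℂ)} [FiniteDimensional ℂ V]
    (hV : ∀ g ∈ V, Differentiable ℂ g) :
    ∃ E : Set ℂ, E.Countable ∧ ∀ t, t ∉ E → ∀ g ∈ V, g ≠ 0 →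
      {m : ℕ | g ((m : ℂ) * t) = 0}.Finite := by
  classical
  let D := Module.finrank ℂ V
  let b : Module.Basis (Fin D) ℂ V := Module.finBasis ℂ V
  let E : Set ℂ := ⋃ m : {m : Fin D → ℕ // Function.Injective m ∧ ∀ j, 0 < m j},
    {t | (Matrix.of fun i j => (b i : ℂ → ℂ) ((m.1 j : ℂ) * t)).det = 0}
  refine ⟨E, ?_, ?_⟩
  · refine Set.countable_iUnion fun m => ?_
    exact countable_zeros (diff_det (fun i => hV _ (b i).2) m.1)
      (det_ne hV rfl b m.1 m.2.1 m.2.2)
  · intro t ht g hg hg0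
    by_contra hinf
    have hinf' : {m : ℕ | g ((m : ℂ) * t) = 0 ∧ 0 < m}.Infinite := by
      intro hfin
      apply hinf
      refine (hfin.insert 0).subset ?_
      intro m hm
      rcases Nat.eq_zero_or_pos m with h | h
      · exact Or.inl h
      · exact Or.inr ⟨hm, h⟩
    obtain ⟨s, hs, hcard⟩ := hinf'.exists_subset_card_eq D
    let m : Fin D → ℕ := fun i => (s.equivFinOfCardEq hcard).symm i
    have hm : Function.Injective m := fun i j hij =>
      (s.equivFinOfCardEq hcard).symm.injective (Subtype.ext hij)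
    have hms : ∀ i, m i ∈ s := fun i => ((s.equivFinOfCardEq hcard).symm i).2
    apply ht
    rw [Set.mem_iUnion]
    refine ⟨⟨m, hm, fun j => (hs (hms j)).2⟩, ?_⟩
    change (Matrix.of fun i j => (b i : ℂ → ℂ) ((m j : ℂ) * t)).det = 0
    rw [← Matrix.exists_vecMul_eq_zero_iff]
    refine ⟨fun k => b.repr ⟨g, hg⟩ k, ?_, ?_⟩
    · intro h0
      apply hg0
      have h1 := b.sum_repr ⟨g, hg⟩
      have h2 : (⟨g, hg⟩ : V) = 0 := by
        rw [← h1]
        refine Finset.sum_eq_zero fun i _ => ?_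
        have h3 : b.repr ⟨g, hg⟩ i = 0 := congrFun h0 i
        rw [h3, zero_smul]
      exact congrArg Subtype.val h2
    · funext j
      have h1 := congrArg (fun v : V => (v : ℂ → ℂ)) (b.sum_repr ⟨g, hg⟩)
      have h2 := congrFun h1 ((m j : ℂ) * t)
      simp only [Submodule.coe_sum, Submodule.coe_smul, Finset.sum_apply, Pi.smul_apply,
        smul_eq_mul] at h2
      simp only [Matrix.vecMul, dotProduct, Matrix.of_apply, Pi.zero_apply]
      rw [h2]
      exact (hs (hms j)).1

variable {M : ℕ}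

/-- **Polynomials along an entire curve.** -/
theorem exists_general {φ : ℂ → Fin M → ℂ} (hφ : ∀ i, Differentiable ℂ fun z => φ z i) :
    ∃ E : Set ℂ, E.Countable ∧ ∀ t, t ∉ E → ∀ G : MvPolynomial (Fin M) ℂ,
      (∃ z, MvPolynomial.eval (φ z) G ≠ 0) →
      {m : ℕ | MvPolynomial.eval (φ ((m : ℂ) * t)) G = 0}.Finite := by
  classical
  let Λ : MvPolynomial (Fin M) ℂ →ₗ[ℂ] (ℂ → ℂ) :=
    { toFun := fun G z => MvPolynomial.eval (φ z) G
      map_add' := fun a b => funext fun z => map_add _ a b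
      map_smul' := fun c a => funext fun z => MvPolynomial.smul_eval (φ z) a c }
  have hdiff : ∀ G, Differentiable ℂ (Λ G) := by
    intro G
    have h1 : Λ G = fun z => ∑ d ∈ G.support, G.coeff d * ∏ i, φ z i ^ d i := by
      funext z
      exact MvPolynomial.eval_eq' (φ z) G
    rw [h1]
    refine Differentiable.fun_sum fun d _ => ?_
    refine Differentiable.const_mul ?_ _
    exact Differentiable.fun_finsetProd fun i _ => (hφ i).pow _
  let V : ℕ → Submodule ℂ (ℂ → ℂ) := fun d =>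
    (MvPolynomial.restrictTotalDegree (Fin M) ℂ d).map Λ
  have hfin : ∀ d, FiniteDimensional ℂ (V d) := by
    intro d
    have h1 : FiniteDimensional ℂ (MvPolynomial.restrictTotalDegree (Fin M) ℂ d) := inferInstance
    exact inferInstance
  have hV : ∀ d, ∀ g ∈ V d, Differentiable ℂ g := by
    rintro d _ ⟨G, -, rfl⟩
    exact hdiff G
  choose E hE hE' using fun d => exists_countable (V := V d) (hV d)
  refine ⟨⋃ d, E d, Set.countable_iUnion hE, fun t ht G ⟨z, hz⟩ => ?_⟩
  have h1 : t ∉ E G.totalDegree := fun h => ht (Set.mem_iUnion.2 ⟨_, h⟩)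
  exact hE' G.totalDegree t h1 (Λ G) ⟨G, by
    rw [SetLike.mem_coe, MvPolynomial.mem_restrictTotalDegree], rfl⟩ fun h0 => hz (congrFun h0 z)

end Pool.Agent.X332.GS
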