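import Mathlib
import Pool.Agent.X332.GS.Kl2
import Pool.Agent.X332.TO.Base
import Pool.Agent.TH143.GT.Emb
import Pool.Agent.X332.GS.Sand

/-!
Group curves: entire curves in a projective space all of whose translates are their images under
rational maps. Along the multiples of a very general number they are orbits of rational maps.
-/

set_option autoImplicit false

namespace Pool.Agent.X332.GS

open Filter MvPolynomial Pool.Agent.TH143.DE Pool.Agent.TH143.GE Pool.Agent.X332.OR
open Pool.Agent.TH143.GT (eval_smul_homog)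

variable {M : ℕ}

/-- A *group curve*: an entire curve `z ↦ φ(z)` in the projective space of dimension `M`, in
homogeneous coordinates, such that for every `t` the point `φ(z + t)` is the image of the point
`φ(z)` under a rational map, given by forms `T` of the same degree which do not all vanish along the
curve. -/
structure GroupCurve (φ : ℂ → Fin (M + 1) → ℂ) : Prop where
  diff : ∀ i, Differentiable ℂ fun z => φ z i
  ne : ∃ z, φ z ≠ 0
  trans : ∀ t : ℂ, ∃ (d : ℕ) (T : Fin (M + 1) → MvPolynomial (Fin (M + 1)) ℂ),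
    (∀ i, (T i).IsHomogeneous d) ∧ (∃ z i, eval (φ z) (T i) ≠ 0) ∧
    ∀ z i j, φ (z + t) i * eval (φ z) (T j) = φ (z + t) j * eval (φ z) (T i)

theorem diff_eval {φ : ℂ → Fin M → ℂ} (hφ : ∀ i, Differentiable ℂ fun z => φ z i)
    (G : MvPolynomial (Fin M) ℂ) : Differentiable ℂ fun z => eval (φ z) G := by
  have h1 : (fun z => eval (φ z) G) = fun z => ∑ d ∈ G.support, G.coeff d * ∏ i, φ z i ^ d i := by
    funext z
    exact MvPolynomial.eval_eq' (φ z) G
  rw [h1]
  refine Differentiable.fun_sum fun d _ => ?_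
  refine Differentiable.const_mul ?_ _
  exact Differentiable.fun_finsetProd fun i _ => (hφ i).pow _

/-- a product of entire functions vanishes only if one of them does -/
theorem mul_zero_ent {a b : ℂ → ℂ} (ha : Differentiable ℂ a) (hb : Differentiable ℂ b)
    (hab : ∀ z, a z * b z = 0) (hne : ∃ z, a z ≠ 0) : ∀ z, b z = 0 := by
  by_contra hcon
  push Not at hcon
  have h1 : a ≠ 0 := fun h => by
    obtain ⟨z, hz⟩ := hne
    exact hz (congrFun h z)
  have h2 : b ≠ 0 := fun h => by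
    obtain ⟨z, hz⟩ := hcon
    exact hz (congrFun h z)
  have h3 := (countable_zeros ha h1).union (countable_zeros hb h2)
  have h4 : ({x | a x = 0} ∪ {x | b x = 0} : Set ℂ) = Set.univ :=
    Set.eq_univ_of_forall fun z => mul_eq_zero.1 (hab z)
  rw [h4] at h3
  exact not_countable_complex h3

/-- homogenization -/
theorem exists_homog (P : MvPolynomial (Fin (M + 1)) ℂ) (i0 : Fin (M + 1)) :
    ∃ G : MvPolynomial (Fin (M + 1)) ℂ, ∃ N : ℕ, ∀ v : Fin (M + 1) → ℂ, v i0 ≠ 0 →
      eval v G = v i0 ^ N * eval (fun j => v j / v i0) P := by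
  classical
  refine ⟨∑ k ∈ Finset.range (P.totalDegree + 1),
    homogeneousComponent k P * X i0 ^ (P.totalDegree - k), P.totalDegree, fun v hv => ?_⟩
  have h1 : eval (fun j => v j / v i0) P =
      ∑ k ∈ Finset.range (P.totalDegree + 1), (v i0)⁻¹ ^ k * eval v (homogeneousComponent k P) := by
    conv_lhs => rw [← sum_homogeneousComponent P]
    rw [map_sum]
    refine Finset.sum_congr rfl fun k _ => ?_
    rw [← eval_smul_homog (homogeneousComponent_isHomogeneous k P)]
    congr 2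
    funext j
    rw [div_eq_inv_mul]
  rw [h1, map_sum, Finset.mul_sum]
  refine Finset.sum_congr rfl fun k hk => ?_
  have hk' : k ≤ P.totalDegree := Nat.lt_succ_iff.1 (Finset.mem_range.1 hk)
  rw [map_mul, map_pow, eval_X, inv_pow]
  have h2 : v i0 ^ P.totalDegree = v i0 ^ (P.totalDegree - k) * v i0 ^ k := by
    rw [← pow_add, Nat.sub_add_cancel hk']
  rw [h2]
  field_simp

/-- the ideal of the affine relations between the coordinates of the curve -/
def relC (φ : ℂ → Fin (M + 1) → ℂ) (i0 : Fin (M + 1)) : Ideal (MvPolynomial (Fin (M + 1)) ℂ) where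
  carrier := {P | ∀ z, φ z i0 ≠ 0 → eval (fun j => φ z j / φ z i0) P = 0}
  add_mem' := by
    intro P Q hP hQ z hz
    rw [map_add, hP z hz, hQ z hz, add_zero]
  zero_mem' := fun z _ => map_zero _
  smul_mem' := by
    intro c P hP z hz
    rw [smul_eq_mul, map_mul, hP z hz, mul_zero]

theorem relC_iff {φ : ℂ → Fin (M + 1) → ℂ} (hφ : ∀ i, Differentiable ℂ fun z => φ z i)
    {i0 : Fin (M + 1)} (h0 : ∃ z, φ z i0 ≠ 0) {P G : MvPolynomial (Fin (M + 1)) ℂ} {N : ℕ}
    (hG : ∀ v : Fin (M + 1) → ℂ, v i0 ≠ 0 →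
      eval v G = v i0 ^ N * eval (fun j => v j / v i0) P) :
    P ∈ relC φ i0 ↔ ∀ z, eval (φ z) G = 0 := by
  constructor
  · intro hP
    refine mul_zero_ent (hφ i0) (diff_eval hφ G) (fun z => ?_) h0
    by_cases hz : φ z i0 = 0
    · rw [hz, zero_mul]
    · rw [hG _ hz, hP z hz, mul_zero, mul_zero]
  · intro h z hz
    have h1 := h z
    rw [hG _ hz] at h1
    exact (mul_eq_zero.1 h1).resolve_left (pow_ne_zero _ hz)

theorem relC_prime {φ : ℂ → Fin (M + 1) → ℂ} (hφ : ∀ i, Differentiable ℂ fun z => φ z i)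
    {i0 : Fin (M + 1)} (h0 : ∃ z, φ z i0 ≠ 0) : (relC φ i0).IsPrime := by
  refine ⟨?_, ?_⟩
  · rw [Ideal.ne_top_iff_one]
    intro h1
    obtain ⟨z, hz⟩ := h0
    have h2 := h1 z hz
    rw [map_one] at h2
    exact one_ne_zero h2
  · intro P Q hPQ
    obtain ⟨G, N, hG⟩ := exists_homog P i0
    obtain ⟨G', N', hG'⟩ := exists_homog Q i0
    by_cases hP : P ∈ relC φ i0
    · exact Or.inl hP
    · right
      rw [relC_iff hφ h0 hG] at hP
      push Not at hP
      rw [relC_iff hφ h0 hG']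
      have h1 : ∀ v : Fin (M + 1) → ℂ, v i0 ≠ 0 →
          eval v (G * G') = v i0 ^ (N + N') * eval (fun j => v j / v i0) (P * Q) := by
        intro v hv
        rw [map_mul, map_mul, hG v hv, hG' v hv, pow_add]
        ring
      have h2 := (relC_iff hφ h0 h1).1 hPQ
      refine mul_zero_ent (diff_eval hφ G) (diff_eval hφ G') (fun z => ?_) hP
      rw [← map_mul]
      exact h2 z

/-- **The multiples of a very general number give an orbit.** -/
theorem exists_orbit {φ : ℂ → Fin (M + 1) → ℂ} (hφ : GroupCurve φ) :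
    ∃ (E : Set ℂ) (i0 : Fin (M + 1)), E.Countable ∧ (∃ z, φ z i0 ≠ 0) ∧ ∀ t, t ∉ E →
      (∀ m : ℕ, φ (((m + 1 : ℕ) : ℂ) * t) i0 ≠ 0) ∧
      Orbit (relC φ i0) (fun m j => φ (((m + 1 : ℕ) : ℂ) * t) j / φ (((m + 1 : ℕ) : ℂ) * t) i0) ∧
      ∀ G : MvPolynomial (Fin (M + 1)) ℂ, (∃ z, eval (φ z) G ≠ 0) →
        {m : ℕ | eval (φ ((m : ℂ) * t)) G = 0}.Finite := by
  obtain ⟨z0, hz0⟩ := hφ.ne
  obtain ⟨i0, hi0⟩ := Function.ne_iff.1 hz0
  have hi0' : φ z0 i0 ≠ 0 := hi0
  obtain ⟨E, hE, hE'⟩ := exists_general hφ.diff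
  let E2 : Set ℂ := ⋃ m : ℕ, {t | φ (((m + 1 : ℕ) : ℂ) * t) i0 = 0}
  have hE2 : E2.Countable := by
    refine Set.countable_iUnion fun m => ?_
    have hm : ((m + 1 : ℕ) : ℂ) ≠ 0 := Nat.cast_ne_zero.2 (Nat.succ_ne_zero m)
    refine countable_zeros (a := fun t => φ (((m + 1 : ℕ) : ℂ) * t) i0) ?_ ?_
    · exact (hφ.diff i0).comp (differentiable_id.const_mul _)
    · intro h
      apply hi0'
      have h1 := congrFun h (z0 / ((m + 1 : ℕ) : ℂ))
      have h2 : ((m + 1 : ℕ) : ℂ) * (z0 / ((m + 1 : ℕ) : ℂ)) = z0 := mul_div_cancel₀ z0 hm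
      rw [h2] at h1
      exact h1
  refine ⟨E ∪ E2, i0, hE.union hE2, ⟨z0, hi0'⟩, fun t ht => ?_⟩
  have ht1 : t ∉ E := fun h => ht (Or.inl h)
  have ht2 : ∀ m : ℕ, φ (((m + 1 : ℕ) : ℂ) * t) i0 ≠ 0 := fun m h =>
    ht (Or.inr (Set.mem_iUnion.2 ⟨m, h⟩))
  refine ⟨ht2, ⟨relC_prime hφ.diff ⟨z0, hi0'⟩, fun m P hP => hP _ (ht2 m), ?_, ?_⟩, hE' t ht1⟩
  · obtain ⟨d, T, hT, ⟨z1, i1, h1⟩, hmul⟩ := hφ.trans t
    have hT0 : ∃ z, eval (φ z) (T i0) ≠ 0 := by
      by_contra hcon
      push Not at hcon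
      refine h1 (mul_zero_ent (a := fun z => φ (z + t) i0) ?_ (diff_eval hφ.diff (T i1))
        (fun z => ?_) ⟨z0 - t, ?_⟩ z1)
      · exact (hφ.diff i0).comp (differentiable_id.add_const t)
      · rw [hmul z i0 i1, hcon z, mul_zero]
      · rw [sub_add_cancel]
        exact hi0'
    have hev : ∀ m j, eval (fun j => φ (((m + 1 : ℕ) : ℂ) * t) j / φ (((m + 1 : ℕ) : ℂ) * t) i0)
        (T j) = (φ (((m + 1 : ℕ) : ℂ) * t) i0)⁻¹ ^ d * eval (φ (((m + 1 : ℕ) : ℂ) * t)) (T j) := by
      intro m j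
      rw [← eval_smul_homog (hT j)]
      congr 2
      funext j
      rw [div_eq_inv_mul]
    refine ⟨T, fun _ => T i0, fun _ hmem => ?_, fun m j => ?_⟩
    · obtain ⟨z, hz⟩ := hT0
      -- at a point where `T i0` and the coordinate do not vanish
      have h2 : ∀ z, φ z i0 * eval (φ z) (T i0) = 0 := by
        intro z
        by_cases h3 : φ z i0 = 0
        · rw [h3, zero_mul]
        · have h4 := hmem z h3
          have h5 : eval (fun j => φ z j / φ z i0) (T i0) =
              (φ z i0)⁻¹ ^ d * eval (φ z) (T i0) := by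
            rw [← eval_smul_homog (hT i0)]
            congr 2
            funext j
            rw [div_eq_inv_mul]
          rw [h5] at h4
          rw [(mul_eq_zero.1 h4).resolve_left (pow_ne_zero _ (inv_ne_zero h3)), mul_zero]
      exact hz (mul_zero_ent (hφ.diff i0) (diff_eval hφ.diff (T i0)) h2 ⟨z0, hi0'⟩ z)
    · have h2 := hmul (((m + 1 : ℕ) : ℂ) * t) j i0
      have h3 : ((m + 1 : ℕ) : ℂ) * t + t = ((m + 1 + 1 : ℕ) : ℂ) * t := by
        push_cast
        ring
      rw [h3] at h2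
      have h4 := ht2 (m + 1)
      change φ (((m + 1 + 1 : ℕ) : ℂ) * t) j / φ (((m + 1 + 1 : ℕ) : ℂ) * t) i0 * _ = _
      rw [hev m i0, hev m j, div_mul_eq_mul_div, div_eq_iff h4]
      linear_combination (φ (((m + 1 : ℕ) : ℂ) * t) i0)⁻¹ ^ d * h2
  · intro P hP
    obtain ⟨G, N, hG⟩ := exists_homog P i0
    rw [relC_iff hφ.diff ⟨z0, hi0'⟩ hG] at hP
    push Not at hP
    have h1 := hE' t ht1 G hP
    refine (h1.preimage (f := fun m : ℕ => m + 1)
      (fun a _ b _ hab => Nat.succ_injective hab)).subset fun m hm => ?_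
    change eval (φ (((m + 1 : ℕ) : ℂ) * t)) G = 0
    rw [hG _ (ht2 m)]
    have hm' : eval (fun j => φ (((m + 1 : ℕ) : ℂ) * t) j / φ (((m + 1 : ℕ) : ℂ) * t) i0) P = 0 := hm
    rw [hm', mul_zero]

variable {n : ℕ}

/-- uncountably many periods -/
theorem const_of_periods {x : ℂ → Fin (n + 1) → ℂ} (hx : ∀ i, Differentiable ℂ fun z => x z i)
    {E : Set ℂ} (hE : E.Countable) (h : ∀ t, t ∉ E → ∃ k : ℕ, 0 < k ∧ ∀ z i j,
      x (z + k * t) i * x z j = x (z + k * t) j * x z i) (z w : ℂ) (i j : Fin (n + 1)) :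
    x z i * x w j = x z j * x w i := by
  by_contra hne
  let a : ℂ → ℂ := fun p => x (w + p) i * x w j - x (w + p) j * x w i
  have ha : Differentiable ℂ a := by
    have h1 : ∀ i, Differentiable ℂ fun p => x (w + p) i := fun i =>
      (hx i).comp (differentiable_id.const_add w)
    exact ((h1 i).mul_const _).sub ((h1 j).mul_const _)
  have ha0 : a ≠ 0 := by
    intro h0
    have h1 := congrFun h0 (z - w)
    have h2 : x (w + (z - w)) i * x w j - x (w + (z - w)) j * x w i = 0 := h1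
    rw [add_sub_cancel] at h2
    exact hne (sub_eq_zero.1 h2)
  have h1 := countable_zeros ha ha0
  have h2 : (⋃ k : ℕ, (fun p : ℂ => p / (k + 1 : ℕ)) '' {p | a p = 0}).Countable :=
    Set.countable_iUnion fun k => h1.image _
  have h3 : E ∪ (⋃ k : ℕ, (fun p : ℂ => p / (k + 1 : ℕ)) '' {p | a p = 0}) = Set.univ := by
    refine Set.eq_univ_of_forall fun t => ?_
    by_cases ht : t ∈ E
    · exact Or.inl ht
    · right
      obtain ⟨k, hk, hper⟩ := h t ht
      rw [Set.mem_iUnion]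
      refine ⟨k - 1, k * t, ?_, ?_⟩
      · change x (w + k * t) i * x w j - x (w + k * t) j * x w i = 0
        rw [sub_eq_zero]
        exact hper w i j
      · have h4 : k - 1 + 1 = k := Nat.sub_add_cancel hk
        rw [h4]
        exact mul_div_cancel_left₀ t (Nat.cast_ne_zero.2 hk.ne')
  have h4 := hE.union h2
  rw [h3] at h4
  exact not_countable_complex h4

/-- **Images of group curves.** If the sequences with coordinates in finitely generated fields are
eventually periodic outside of `Z`, then each image of a group curve under a rational map lies in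
`Z` or is a point. -/
theorem group_images {SX SZ : Set (MvPolynomial (Fin (n + 1)) ℂ)} (hX : Pool.Agent.X332.GT.Forms SX)
    (hZ : Pool.Agent.X332.GT.Forms SZ) (hd : Pool.Agent.X332.GT.Dyn SX SZ)
    {φ : ℂ → Fin (M + 1) → ℂ} (hφ : GroupCurve φ) {e : ℕ}
    {H : Fin (n + 1) → MvPolynomial (Fin (M + 1)) ℂ} (hH : ∀ i, (H i).IsHomogeneous e)
    (hmem : ∀ z, ∀ G ∈ SX, eval (fun i => eval (φ z) (H i)) G = 0) :
    (∀ z, ∀ G ∈ SZ, eval (fun i => eval (φ z) (H i)) G = 0) ∨
    ∀ z w i j, eval (φ z) (H i) * eval (φ w) (H j) = eval (φ z) (H j) * eval (φ w) (H i) := by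
  by_contra hcon
  obtain ⟨hcon1, hcon2⟩ := not_or.1 hcon
  push Not at hcon1
  obtain ⟨z1, G, hG, hz1⟩ := hcon1
  apply hcon2
  obtain ⟨E, i0, hE, hi0, horb⟩ := exists_orbit hφ
  have hxd : ∀ i, Differentiable ℂ fun z => eval (φ z) (H i) := fun i => diff_eval hφ.diff (H i)
  -- the forms composed with `H`
  have hcomp : ∀ (P : MvPolynomial (Fin (n + 1)) ℂ) (v : Fin (M + 1) → ℂ),
      eval v (bind₁ H P) = eval (fun i => eval v (H i)) P := fun P v => by
    rw [← MvPolynomial.aeval_eq_eval, MvPolynomial.aeval_bind₁]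
    rw [MvPolynomial.aeval_eq_eval]
  refine const_of_periods (x := fun z i => eval (φ z) (H i)) hxd hE fun t ht => ?_
  obtain ⟨hne0, ho, hfin⟩ := horb t ht
  have hev : ∀ P : MvPolynomial (Fin (M + 1)) ℂ, (∃ z, eval (φ z) P ≠ 0) →
      ∀ᶠ m : ℕ in atTop, eval (φ (((m + 1 : ℕ) : ℂ) * t)) P ≠ 0 := by
    intro P hP
    have h1 := ((hfin P hP).preimage (f := fun m : ℕ => m + 1)
      (fun a _ b _ hab => Nat.succ_injective hab)).compl_mem_cofinite
    rw [Nat.cofinite_eq_atTop] at h1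
    exact h1
  -- the sequence
  let X : ℕ → Fin (n + 1) → ℂ := fun m i =>
    eval (fun j => φ (((m + 1 : ℕ) : ℂ) * t) j / φ (((m + 1 : ℕ) : ℂ) * t) i0) (H i)
  have hXe : ∀ m i, X m i =
      (φ (((m + 1 : ℕ) : ℂ) * t) i0)⁻¹ ^ e * eval (φ (((m + 1 : ℕ) : ℂ) * t)) (H i) := by
    intro m i
    rw [← eval_smul_homog (hH i)]
    change eval _ (H i) = _
    congr 2
    funext j
    rw [div_eq_inv_mul]
  have hc0 : ∀ m : ℕ, (φ (((m + 1 : ℕ) : ℂ) * t) i0)⁻¹ ^ e ≠ 0 := fun m =>
    pow_ne_zero _ (inv_ne_zero (hne0 m))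
  have hXev : ∀ (P : MvPolynomial (Fin (n + 1)) ℂ) (d : ℕ), P.IsHomogeneous d → ∀ m,
      eval (X m) P = ((φ (((m + 1 : ℕ) : ℂ) * t) i0)⁻¹ ^ e) ^ d *
        eval (fun i => eval (φ (((m + 1 : ℕ) : ℂ) * t)) (H i)) P := by
    intro P d hP m
    rw [← eval_smul_homog hP]
    congr 2
    funext i
    exact hXe m i
  obtain ⟨dG, hdG⟩ := hZ G hG
  have hGne : ∀ᶠ m : ℕ in atTop, eval (X m) G ≠ 0 := by
    filter_upwards [hev (bind₁ H G) ⟨z1, by rw [hcomp]; exact hz1⟩] with m hm
    rw [hXev G dG hdG]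
    rw [hcomp] at hm
    exact mul_ne_zero (pow_ne_zero _ (hc0 m)) hm
  -- it is not zero
  have hHne : ∃ i z, eval (φ z) (H i) ≠ 0 := by
    by_contra hall
    push Not at hall
    apply hcon2
    intro z w i j
    rw [hall i z, hall j z, zero_mul, zero_mul]
  obtain ⟨ih, zh, hih⟩ := hHne
  have hXne : ∀ᶠ m : ℕ in atTop, X m ≠ 0 := by
    filter_upwards [hev (H ih) ⟨zh, hih⟩] with m hm h0
    have h1 := congrFun h0 ih
    rw [hXe] at h1
    exact mul_ne_zero (hc0 m) hm h1
  have hper := hd (coef ho) (coef_field ho) (Pool.Agent.X332.TO.finGen_coef ho) X hXne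
    (fun j => poly_mem ho (H j)) ?_ ?_
  · obtain ⟨k, m0, hk, hper⟩ := hper
    refine ⟨k, hk, ?_⟩
    obtain ⟨d, T, hT, ⟨z3, i3, h3⟩, hmul⟩ := hφ.trans (k * t)
    intro z i j
    -- the polynomial relation
    let R : MvPolynomial (Fin (M + 1)) ℂ := bind₁ T (H i) * H j - bind₁ T (H j) * H i
    have hR : ∀ v, eval v R = eval (fun l => eval v (T l)) (H i) * eval v (H j) -
        eval (fun l => eval v (T l)) (H j) * eval v (H i) := by
      intro v
      have h1 : ∀ P : MvPolynomial (Fin (M + 1)) ℂ,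
          eval v (bind₁ T P) = eval (fun i => eval v (T i)) P := fun P => by
        rw [← MvPolynomial.aeval_eq_eval, MvPolynomial.aeval_bind₁]
        rw [MvPolynomial.aeval_eq_eval]
      rw [map_sub, map_mul, map_mul, h1, h1]
    -- proportionality
    have hprop : ∀ z, (∃ l, eval (φ z) (T l) ≠ 0) → φ (z + k * t) ≠ 0 →
        ∃ c : ℂ, c ≠ 0 ∧ ∀ l, φ (z + k * t) l = c * eval (φ z) (T l) := by
      rintro z ⟨l, hl⟩ hne
      refine ⟨φ (z + k * t) l / eval (φ z) (T l), ?_, fun l' => ?_⟩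
      · intro h0
        apply hne
        have h1 : φ (z + k * t) l = 0 := by
          rcases div_eq_zero_iff.1 h0 with h | h
          · exact h
          · exact absurd h hl
        funext l'
        have h2 := hmul z l' l
        rw [h1, zero_mul] at h2
        exact (mul_eq_zero.1 h2).resolve_right hl
      · have h2 := hmul z l' l
        rw [div_mul_eq_mul_div, eq_div_iff hl]
        exact h2
    have hkey : ∀ z, (∃ l, eval (φ z) (T l) ≠ 0) → φ (z + k * t) ≠ 0 → ∃ c : ℂ, c ≠ 0 ∧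
        eval (φ (z + k * t)) (H i) * eval (φ z) (H j) -
          eval (φ (z + k * t)) (H j) * eval (φ z) (H i) = c * eval (φ z) R := by
      intro z h1 h2
      obtain ⟨c, hc, h4⟩ := hprop z h1 h2
      have h5 : φ (z + k * t) = fun l => c * eval (φ z) (T l) := funext h4
      refine ⟨c ^ e, pow_ne_zero _ hc, ?_⟩
      rw [h5, eval_smul_homog (hH i), eval_smul_homog (hH j), hR]
      ring
    -- the relation holds along the curve
    have hR0 : ∀ z, eval (φ z) R = 0 := by
      by_contra hcon3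
      push Not at hcon3
      have e1 := hev R hcon3
      have e2 := hev (T i3) ⟨z3, h3⟩
      have e3 : ∀ᶠ m : ℕ in atTop, m0 ≤ m := eventually_ge_atTop m0
      obtain ⟨m, h6, h7, h8⟩ := (e1.and (e2.and e3)).exists
      have h9 : ((m + 1 : ℕ) : ℂ) * t + k * t = ((m + k + 1 : ℕ) : ℂ) * t := by
        push_cast
        ring
      have h10 : φ (((m + 1 : ℕ) : ℂ) * t + k * t) ≠ 0 := by
        intro h0
        rw [h9] at h0
        exact hne0 (m + k) (congrFun h0 i0)
      obtain ⟨c, hc, h11⟩ := hkey _ ⟨i3, h7⟩ h10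
      have h12 := hper m h8 i j
      rw [hXe, hXe, hXe, hXe] at h12
      rw [h9] at h11
      have h13 : ((φ (((m + k + 1 : ℕ) : ℂ) * t) i0)⁻¹ ^ e * (φ (((m + 1 : ℕ) : ℂ) * t) i0)⁻¹ ^ e) *
          (eval (φ (((m + k + 1 : ℕ) : ℂ) * t)) (H i) * eval (φ (((m + 1 : ℕ) : ℂ) * t)) (H j) -
          eval (φ (((m + k + 1 : ℕ) : ℂ) * t)) (H j) *
            eval (φ (((m + 1 : ℕ) : ℂ) * t)) (H i)) = 0 := by
        linear_combination h12
      rw [h11] at h13
      exact mul_ne_zero (mul_ne_zero (hc0 (m + k)) (hc0 m)) (mul_ne_zero hc h6) h13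
    -- at every point
    have hshift : ∀ l, Differentiable ℂ fun z => φ (z + k * t) l := fun l =>
      (hφ.diff l).comp (differentiable_id.add_const _)
    have hD : Differentiable ℂ fun z => eval (φ (z + k * t)) (H i) * eval (φ z) (H j) -
        eval (φ (z + k * t)) (H j) * eval (φ z) (H i) :=
      ((diff_eval hshift (H i)).mul (hxd j)).sub ((diff_eval hshift (H j)).mul (hxd i))
    have h14 : ∀ z, eval (φ z) (T i3) * φ (z + k * t) i0 *
        (eval (φ (z + k * t)) (H i) * eval (φ z) (H j) -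
          eval (φ (z + k * t)) (H j) * eval (φ z) (H i)) = 0 := by
      intro z
      by_cases h15 : eval (φ z) (T i3) = 0
      · rw [h15, zero_mul, zero_mul]
      · by_cases h16 : φ (z + k * t) i0 = 0
        · rw [h16, mul_zero, zero_mul]
        · obtain ⟨c, -, h17⟩ := hkey z ⟨i3, h15⟩ fun h0 => h16 (congrFun h0 i0)
          rw [h17, hR0 z, mul_zero, mul_zero]
    have h18 : ∃ z, eval (φ z) (T i3) * φ (z + k * t) i0 ≠ 0 := by
      by_contra hcon3
      push Not at hcon3
      obtain ⟨z4, hz4⟩ := hi0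
      have h19 := mul_zero_ent (diff_eval hφ.diff (T i3)) (hshift i0) hcon3 ⟨z3, h3⟩ (z4 - k * t)
      rw [sub_add_cancel] at h19
      exact hz4 h19
    have h20 := mul_zero_ent ((diff_eval hφ.diff (T i3)).mul (hshift i0)) hD h14 h18 z
    exact sub_eq_zero.1 h20
  · refine Eventually.of_forall fun m => ?_
    rw [Pool.Agent.X332.GT.isPtP_spanC hX]
    intro G' hG'
    obtain ⟨d', hd'⟩ := hX G' hG'
    rw [Pool.Agent.X332.GT.aeval_eval, hXev G' d' hd', hmem _ G' hG', mul_zero]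
  · filter_upwards [hGne] with m hm h1
    rw [Pool.Agent.X332.GT.isPtP_spanC hZ] at h1
    have h2 := h1 G hG
    rw [Pool.Agent.X332.GT.aeval_eval] at h2
    exact hm h2

end Pool.Agent.X332.GS
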