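import Mathlib
import Pool.Agent.X332.GS.Grp

/-!
The special set of the images of group curves.
-/

set_option autoImplicit false

namespace Pool.Agent.X332.GS

open Filter Module MvPolynomial FF Pool.Agent.W602.GT Pool.Agent.TH143.HE
  Pool.Agent.TH143.TW Pool.Agent.TH143.DE Pool.Agent.TH143.GE
open Pool.Agent.X332.TO
open Pool.Agent.X332.GT (Zeros Forms Dyn dynForms dyn_dynForms dynForms_forms dyn_iff dyn_self
  isPtP_span isPtP_spanC aeval_eval)

variable {n : ℕ} {ι : Type} {F : ι → MvPolynomial (Fin (n + 1)) ℂ}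

/-- The curve `z ↦ x(z)` in `X = {F = 0}` (in homogeneous coordinates) is a nonconstant image of a
group curve under a rational map, given by forms `H` of the same degree. -/
def GrpImage (F : ι → MvPolynomial (Fin (n + 1)) ℂ) (x : ℂ → Fin (n + 1) → ℂ) : Prop :=
  (∃ (M e : ℕ) (φ : ℂ → Fin (M + 1) → ℂ) (H : Fin (n + 1) → MvPolynomial (Fin (M + 1)) ℂ),
    GroupCurve φ ∧ (∀ i, (H i).IsHomogeneous e) ∧ ∀ z i, x z i = eval (φ z) (H i)) ∧
  (∀ z e, eval (x z) (F e) = 0) ∧ ∃ z w i j, x z i * x w j ≠ x z j * x w i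

/-- The Zariski closure of the union of the nonconstant images of group curves in `X` (as a
cone). -/
def SpGrp (F : ι → MvPolynomial (Fin (n + 1)) ℂ) : Set (Fin (n + 1) → ℂ) :=
  {x | x ∈ Cone F ∧ ∀ G : MvPolynomial (Fin (n + 1)) ℂ, IsForm G →
    (∀ y, GrpImage F y → ∀ z, eval (y z) G = 0) → eval x G = 0}

/-- the group curve of the multiplicative group -/
theorem groupCurve_gm : GroupCurve (M := 1) (fun z => ![1, Complex.exp z]) := by
  refine ⟨?_, ⟨0, fun h => one_ne_zero (congrFun h 0)⟩, fun t => ⟨1, ![X 0, C (Complex.exp t) * X 1],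
    ?_, ⟨0, 0, ?_⟩, ?_⟩⟩
  · rw [Fin.forall_fin_two]
    exact ⟨differentiable_const 1, Complex.differentiable_exp⟩
  · rw [Fin.forall_fin_two]
    refine ⟨isHomogeneous_X _ _, ?_⟩
    have h1 := (isHomogeneous_C (Fin 2) (Complex.exp t)).mul (isHomogeneous_X ℂ (1 : Fin 2))
    rw [zero_add] at h1
    exact h1
  · change eval _ (X 0 : MvPolynomial (Fin 2) ℂ) ≠ 0
    rw [eval_X]
    exact one_ne_zero
  · intro z
    rw [Fin.forall_fin_two]
    constructor
    · rw [Fin.forall_fin_two]
      refine ⟨rfl, ?_⟩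
      change 1 * eval _ (C (Complex.exp t) * X 1 : MvPolynomial (Fin 2) ℂ) =
        Complex.exp (z + t) * eval _ (X 0 : MvPolynomial (Fin 2) ℂ)
      rw [map_mul, eval_C, eval_X, eval_X]
      change 1 * (Complex.exp t * Complex.exp z) = Complex.exp (z + t) * 1
      rw [Complex.exp_add]
      ring
    · rw [Fin.forall_fin_two]
      refine ⟨?_, rfl⟩
      change Complex.exp (z + t) * eval _ (X 0 : MvPolynomial (Fin 2) ℂ) =
        1 * eval _ (C (Complex.exp t) * X 1 : MvPolynomial (Fin 2) ℂ)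
      rw [map_mul, eval_C, eval_X, eval_X]
      change Complex.exp (z + t) * 1 = 1 * (Complex.exp t * Complex.exp z)
      rw [Complex.exp_add]
      ring

/-- homogenization in one variable -/
theorem exists_homog1 (P : Polynomial ℂ) {e : ℕ} (he : P.natDegree ≤ e) :
    ∃ H : MvPolynomial (Fin 2) ℂ, H.IsHomogeneous e ∧ ∀ u : ℂ, eval ![1, u] H = P.eval u := by
  refine ⟨∑ k ∈ Finset.range (e + 1), C (P.coeff k) * (X 1 ^ k * X 0 ^ (e - k)), ?_, ?_⟩
  · refine IsHomogeneous.sum _ _ _ fun k hk => ?_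
    have hk' : k ≤ e := Nat.lt_succ_iff.1 (Finset.mem_range.1 hk)
    have h1 := (isHomogeneous_C (Fin 2) (P.coeff k)).mul
      (((isHomogeneous_X ℂ (1 : Fin 2)).pow k).mul ((isHomogeneous_X ℂ (0 : Fin 2)).pow (e - k)))
    have h2 : 0 + (1 * k + 1 * (e - k)) = e := by omega
    rw [h2] at h1
    exact h1
  · intro u
    rw [map_sum, Polynomial.eval_eq_sum_range' (Nat.lt_succ_of_le he)]
    refine Finset.sum_congr rfl fun k _ => ?_
    rw [map_mul, map_mul, map_pow, map_pow, eval_C, eval_X, eval_X]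
    change P.coeff k * (u ^ k * 1 ^ (e - k)) = _
    rw [one_pow, mul_one]

theorem gm_sub_grp : SpGm F ⊆ SpGrp F := by
  rintro x ⟨hx, hx'⟩
  refine ⟨hx, fun G hG hg => ?_⟩
  rw [← aeval_eval]
  refine hx' G hG fun P hP t ht => ?_
  -- the polynomials as an image of a group curve
  let e : ℕ := Finset.univ.sup fun i => (P i).natDegree
  have he : ∀ i, (P i).natDegree ≤ e := fun i =>
    Finset.le_sup (f := fun i => (P i).natDegree) (Finset.mem_univ i)
  choose H hH hH' using fun i => exists_homog1 (P i) (he i)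
  have hPx : ∀ t, t ≠ 0 → ∃ z : ℂ, Complex.exp z = t := fun t ht =>
    ⟨Complex.log t, Complex.exp_log ht⟩
  have himg : GrpImage F fun z i => (P i).eval (Complex.exp z) := by
    refine ⟨⟨1, e, fun z => ![1, Complex.exp z], H, groupCurve_gm, hH, fun z i => ?_⟩,
      fun z e' => ?_, ?_⟩
    · exact (hH' i _).symm
    · rw [← aeval_eval]
      exact hP.mem _ (Complex.exp_ne_zero z) e'
    · obtain ⟨a, b, ha, hb, hab⟩ := hP.nonconst
      obtain ⟨z, hz⟩ := hPx a ha
      obtain ⟨w, hw⟩ := hPx b hb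
      by_contra hcon
      push Not at hcon
      have h1 := LinearIndependent.pair_iff.1 hab
      obtain ⟨j0, hj0⟩ := Function.ne_iff.1 (hP.ne b hb)
      have hj0' : (P j0).eval b ≠ 0 := hj0
      have h2 := h1 ((P j0).eval b) (-(P j0).eval a) (by
        funext j
        have h3 := hcon z w j j0
        rw [hz, hw] at h3
        simp only [Pi.add_apply, Pi.smul_apply, smul_eq_mul, Pi.zero_apply]
        linear_combination h3)
      exact hj0' h2.1
  obtain ⟨z, hz⟩ := hPx t ht
  have h1 := hg _ himg z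
  rw [hz] at h1
  change aeval _ G = 0
  rw [aeval_eval]
  exact h1

/-- each closed set outside of which the sequences are periodic contains the images of the group
curves -/
theorem grp_of_dyn (hF : ∀ e, IsForm (F e)) {S : Set (MvPolynomial (Fin (n + 1)) ℂ)}
    (hS : Forms S) (hd : Dyn (Set.range F) S) {y : ℂ → Fin (n + 1) → ℂ} (hy : GrpImage F y)
    (z : ℂ) : y z ∈ Zeros ℂ S := by
  obtain ⟨⟨M, e, φ, H, hφ, hH, hyH⟩, hX, z1, w1, i1, j1, hne⟩ := hy
  have hyf : ∀ z, (fun i => eval (φ z) (H i)) = y z := fun z => (funext fun i => hyH z i).symm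
  rcases group_images (forms_range hF) hS hd hφ hH (fun z G hG => by
    obtain ⟨e', rfl⟩ := hG
    rw [hyf]
    exact hX z e') with h | h
  · intro G hG
    rw [aeval_eval, ← hyf]
    exact h z G hG
  · exfalso
    apply hne
    rw [hyH, hyH, hyH, hyH]
    exact h z1 w1 i1 j1

theorem grp_sub_dyn (hF : ∀ e, IsForm (F e)) : SpGrp F ⊆ SpDyn F := by
  rintro x ⟨hx, hx'⟩
  rw [spDyn_eq hF]
  refine ⟨hx.1, fun G hG => ?_⟩
  rw [aeval_eval]
  refine hx' G (dynForms_forms _ G hG) fun y hy z => ?_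
  rw [← aeval_eval]
  exact grp_of_dyn hF (dynForms_forms _) dyn_dynForms hy z G hG

/-- the classes with `SpAlg = SpGm` -/
theorem grp_of (hF : ∀ e, IsForm (F e)) (h : SpAlg F ⊆ SpGm F) :
    SpDyn F = SpAlg F ∧ SpGrp F = SpAlg F := by
  have h1 := dyn_sub_alg hF
  have h2 := grp_sub_dyn hF
  have h3 := gm_sub_grp (F := F)
  exact ⟨Set.Subset.antisymm h1 (h.trans (h3.trans h2)),
    Set.Subset.antisymm (h2.trans h1) (h.trans h3)⟩

end Pool.Agent.X332.GS
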