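import Mathlib
import Pool.Agent.X332.GS.GrpSp
import Pool.Agent.X332.GS.GenSp

/-!
Pseudo-hyperbolicity in terms of sequences and group curves.
-/

set_option autoImplicit false

namespace Pool.Agent.X332.GS

open Filter Module MvPolynomial FF Pool.Agent.W602.GT
open Pool.Agent.X332.GT (Zeros Forms Dyn dynForms dyn_dynForms dynForms_forms dyn_iff dyn_self
  isPtP_span isPtP_spanC aeval_eval)

variable {n : ℕ} {ι : Type} {F : ι → MvPolynomial (Fin (n + 1)) ℂ}

/-- There is a proper closed subset of `X = {F = 0}` outside of which all sequences of points given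
by towers of linear recurrences are eventually periodic. -/
def PseudoTowers (F : ι → MvPolynomial (Fin (n + 1)) ℂ) : Prop :=
  ∃ S : Set (MvPolynomial (Fin (n + 1)) ℂ), Forms S ∧ ¬ Cone F ⊆ Zeros ℂ S ∧
    TowersPeriodic F (Zeros ℂ S)

/-- There is a proper closed subset of `X = {F = 0}` which contains all nonconstant images of group
curves in `X`. -/
def PseudoGroups (F : ι → MvPolynomial (Fin (n + 1)) ℂ) : Prop :=
  ∃ S : Set (MvPolynomial (Fin (n + 1)) ℂ), Forms S ∧ ¬ Cone F ⊆ Zeros ℂ S ∧
    ∀ y, GrpImage F y → ∀ z, y z ∈ Zeros ℂ S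

theorem pseudo_towers (hF : ∀ e, IsForm (F e)) : PseudoTowers F ↔ SpDyn F ≠ Cone F := by
  constructor
  · rintro ⟨S, hS, hne, hT⟩ heq
    apply hne
    intro x hx
    rw [← heq] at hx
    exact hx.2 S hS hT
  · intro hne
    refine ⟨dynForms (Set.range F), dynForms_forms _, fun h => hne ?_,
      (tow_iff hF (dynForms_forms _)).2 dyn_dynForms⟩
    refine Set.Subset.antisymm (fun x hx => hx.1) fun x hx => ?_
    rw [spDyn_eq hF]
    exact ⟨hx.1, h hx⟩

theorem pseudo_groups : PseudoGroups F ↔ SpGrp F ≠ Cone F := by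
  constructor
  · rintro ⟨S, hS, hne, hT⟩ heq
    apply hne
    intro x hx G hG
    rw [← heq] at hx
    rw [aeval_eval]
    refine hx.2 G (hS G hG) fun y hy z => ?_
    rw [← aeval_eval]
    exact hT y hy z G hG
  · intro hne
    let S : Set (MvPolynomial (Fin (n + 1)) ℂ) :=
      {G | IsForm G ∧ ∀ y, GrpImage F y → ∀ z, eval (y z) G = 0}
    refine ⟨S, fun G hG => hG.1, fun h => hne ?_, fun y hy z G hG => ?_⟩
    · refine Set.Subset.antisymm (fun x hx => hx.1) fun x hx => ⟨hx, fun G hG h1 => ?_⟩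
      rw [← aeval_eval]
      exact h hx G ⟨hG, h1⟩
    · rw [aeval_eval]
      exact hG.2 y hy z

end Pool.Agent.X332.GS
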