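import Mathlib
import Pool.Agent.X332.GS.Gen

/-!
There are no generic sequences over towers on varieties of general type.
-/

set_option autoImplicit false

namespace Pool.Agent.X332.GS

open Filter Module MvPolynomial FF Pool.Agent.W602.GT Pool.Agent.TH143.HE
  Pool.Agent.TH143.TW Pool.Agent.TH143.DE Pool.Agent.TH143.GE Pool.Agent.X332.GT

variable {N : ℕ} {K : Type} [Field K] [Algebra ℂ K] {w : ℕ} {y : Fin (N + 1) → K}
  {B B' : Subalgebra ℂ (ℕ → ℂ)} {x : ℕ → Fin (N + 1) → ℂ}

/-- a linear form with the coefficients `1, c, c ^ 2, ...` -/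
noncomputable def lf (N : ℕ) (c : ℂ) : MvPolynomial (Fin (N + 1)) ℂ :=
  ∑ j : Fin (N + 1), C (c ^ (j : ℕ)) * X j

theorem lf_hom (c : ℂ) : (lf N c).IsHomogeneous 1 := by
  refine IsHomogeneous.sum _ _ _ fun j _ => ?_
  have h2 := (isHomogeneous_C (Fin (N + 1)) (c ^ (j : ℕ))).mul (isHomogeneous_X ℂ j)
  rwa [zero_add] at h2

theorem lf_eval (c : ℂ) (v : Fin (N + 1) → ℂ) :
    eval v (lf N c) = ∑ j : Fin (N + 1), c ^ (j : ℕ) * v j := by
  simp only [lf, map_sum, map_mul, eval_C, eval_X]

/-- **The coordinates are algebraic.** -/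
theorem int_part (hnu : ¬ H533R3.SL.Uniruled (relI y)) (hy : y ≠ 0) (hB : CoefField B)
    (hgen : GenSeq y x) (hx : ∀ j, LinRec B fun m => x m j) :
    ∃ (c : ℂ) (t : ℕ), (∀ᶠ m in atTop, eval (x m) (lf N c) ≠ 0) ∧
      ∀ j, IsIntegral (KB B hB) (gg fun m => x (m + t) j / eval (x (m + t)) (lf N c)) := by
  classical
  have hne := hgen.ne hy
  obtain ⟨c, hc⟩ := exists_linear (fun m => if x m = 0 then fun _ => 1 else x m) (by
    intro m
    by_cases h0 : x m = 0
    · simp only [if_pos h0]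
      intro h1
      exact one_ne_zero (congrFun h1 0)
    · simp only [if_neg h0]
      exact h0)
  have hℓx : ∀ᶠ m in atTop, eval (x m) (lf N c) ≠ 0 := by
    filter_upwards [hne] with m hm
    have h1 := hc m
    simp only [if_neg hm] at h1
    rw [lf_eval]
    exact h1
  obtain ⟨t, ht⟩ := exists_rcD hB hx (lf_hom c) hℓx
    (s := {G | IsForm G ∧ W602.GT.val y G = 0}) (fun G hG => hG.1)
    (fun G hG => (hgen G hG.1).1 hG.2)
  refine ⟨c, t, hℓx, fun j => ?_⟩
  refine int_of_cf hB fun J hJ hJp => ?_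
  have hdom : IsDomain ((ℕ → ℂ) ⧸ J) := Ideal.Quotient.isDomain J
  apply rel_of_cf hB hJ hJp (FractionRing ((ℕ → ℂ) ⧸ J))
  by_contra hcon
  obtain ⟨D, hD⟩ := ht J hJ hJp (FractionRing ((ℕ → ℂ) ⧸ J)) j hcon
  refine no_curves hnu hy (hgen.sub (f := fun m => m + t) (tendsto_add_atTop_nat t)) D ?_
  refine hD.mono ?_
  rintro m ⟨p, h1, h2, h3, h4⟩
  exact ⟨p, h1, fun G hG h0 => h2 G ⟨hG, h0⟩, h3, h4⟩

/-- the linear form of the sequence -/
theorem lf_LF (hB : CoefField B) (hx : ∀ j, LinRec B fun m => x m j) (c : ℂ) (t : ℕ) :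
    LF (KB B hB) (gg fun m => eval (x (m + t)) (lf N c)) := by
  have hf : ∀ j, LF (KB B hB) (gg fun m => x (m + t) j) := fun j =>
    LF_of_linRec hB (LinRec.shift hB (hx j) t)
  have h1 : gg (fun m => eval (x (m + t)) (lf N c)) = ∑ j : Fin (N + 1),
      algebraMap (KB B hB) GG (cK hB ⟨_, B.algebraMap_mem (c ^ (j : ℕ))⟩) *
        gg fun m => x (m + t) j := by
    simp only [alg_cK, ← map_mul]
    rw [← map_sum]
    congr 1
    funext m
    rw [lf_eval, Finset.sum_apply]
    rfl
  rw [h1]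
  exact LF.sum (shK hB) (shG_alg hB) _ fun j _ =>
    (LF.alg (shK hB) (shG_alg hB) _).mul (hf j)

/-- There are no generic sequences with coordinates satisfying linear recurrences over `B`. -/
def NoGen (y : Fin (N + 1) → K) (B : Subalgebra ℂ (ℕ → ℂ)) : Prop :=
  ∀ x : ℕ → Fin (N + 1) → ℂ, GenSeq y x → ¬ ∀ j, LinRec B fun m => x m j

section

variable {k : Type} [Field k] [Algebra ℂ k] [Algebra k GG] [IsScalarTower ℂ k GG]
  {S : Subalgebra k GG}

theorem gen_split [Algebra.EssFiniteType ℂ K] (hw : 0 < w) (hgt : GeneralType ℂ K w) (hy : y ≠ 0)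
    (hco : coords ℂ y = ⊤) (hess : Algebra.EssFiniteType ℂ k)
    (hst : ∀ x ∈ S, shG x ∈ S) (hfin : Module.Finite k S)
    (hgen : GenSeq y x) (hY : ∀ i, (gg fun m => x m i) ∈ S) : False := by
  obtain ⟨M, hM, hp⟩ := exists_period hst hfin
  have hfld := Sa_fld hst hfin hM hp 0
  have hess' := Sa_ess hfin hM 0 hfld hess
  have hg := hgen.sub (f := fun m => 0 + M * m) (by
    refine tendsto_atTop_mono (fun m => ?_) tendsto_id
    change m ≤ 0 + M * m
    nlinarith)
  obtain ⟨G, h1, h2, h3⟩ := not_generic hw hgt hy hco hfld.field (finGen_of_ess hess')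
    (x := fun m => x (0 + M * m)) (fun j => ⟨_, hY j, rfl⟩) (fun G hG h0 => (hg G hG).1 h0)
  obtain ⟨m, hm1, hm2⟩ := (h3.and ((hg G h1).2 h2)).exists
  exact hm2 hm1

end

theorem noGen_fin [Algebra.EssFiniteType ℂ K] (hw : 0 < w) (hgt : GeneralType ℂ K w) (hy : y ≠ 0)
    (hco : coords ℂ y = ⊤) (hB : CoefField B) (hess : Algebra.EssFiniteType ℂ (KB B hB)) :
    NoGen y B := by
  classical
  intro x hgen hx
  obtain ⟨c, t, hℓx, hint⟩ := int_part (not_uniruled hw hgt hy hco) hy hB hgen hx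
  let z : Fin (N + 1) → ℕ → ℂ := fun j m => x (m + t) j / eval (x (m + t)) (lf N c)
  have hℓt := eventually_shift hℓx t
  obtain ⟨S, hyS, hst, hfin⟩ := exists_common hB (f := fun j => gg fun m => x (m + t) j)
    (r := fun j => gg (z j)) (g := gg fun m => eval (x (m + t)) (lf N c))
    (fun j => LF_of_linRec hB (LinRec.shift hB (hx j) t)) (lf_LF hB hx c t) (ne_unit hℓt)
    (fun j => by
      rw [← map_mul, gg_eq]
      filter_upwards [hℓt] with m hm
      rw [Pi.mul_apply]
      exact mul_div_cancel₀ _ hm) hint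
  have hb : ∀ᶠ m in atTop, (eval (x (m + t)) (lf N c))⁻¹ ≠ 0 := by
    filter_upwards [hℓt] with m h2
    exact inv_ne_zero h2
  refine gen_split hw hgt hy hco hess hst hfin
    ((hgen.sub (f := fun m => m + t) (tendsto_add_atTop_nat t)).scale hb) fun j => ?_
  have h1 : (fun m => (eval (x (m + t)) (lf N c))⁻¹ * x (m + t) j) = z j := by
    funext m
    change _ = x (m + t) j / eval (x (m + t)) (lf N c)
    rw [div_eq_mul_inv, mul_comm]
  rw [h1]
  exact hyS j

theorem noGen_step (hnu : ¬ H533R3.SL.Uniruled (relI y)) (hy : y ≠ 0) (hB : CoefField B)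
    (hB' : CoefField B') (hst : Step B B') (hG : NoGen y B) : NoGen y B' := by
  classical
  intro x hgen hx
  obtain ⟨c, t, hℓx, hint⟩ := int_part hnu hy hB' hgen hx
  let z : Fin (N + 1) → ℕ → ℂ := fun j m => x (m + t) j / eval (x (m + t)) (lf N c)
  have hℓt := eventually_shift hℓx t
  obtain ⟨q, hqu, hq, hqr⟩ := descend hB hB' hst (f := fun j => gg fun m => x (m + t) j)
    (r := fun j => gg (z j)) (g := gg fun m => eval (x (m + t)) (lf N c))
    (fun j => LF_of_linRec hB' (LinRec.shift hB' (hx j) t)) (lf_LF hB' hx c t) (ne_unit hℓt)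
    (fun j => by
      rw [← map_mul, gg_eq]
      filter_upwards [hℓt] with m hm
      rw [Pi.mul_apply]
      exact mul_div_cancel₀ _ hm) hint
  obtain ⟨Q, rfl⟩ := gg_surj q
  have hQ := unit_ne hqu
  have hb : ∀ᶠ m in atTop, Q m / eval (x (m + t)) (lf N c) ≠ 0 := by
    filter_upwards [hQ, hℓt] with m h1 h2
    exact div_ne_zero h1 h2
  refine hG _ ((hgen.sub (f := fun m => m + t) (tendsto_add_atTop_nat t)).scale hb) fun j => ?_
  apply linRec_of_LF hB
  have h1 : gg (fun m => Q m / eval (x (m + t)) (lf N c) * x (m + t) j) = gg Q * gg (z j) := by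
    rw [← map_mul]
    congr 1
    funext m
    change _ = Q m * (x (m + t) j / eval (x (m + t)) (lf N c))
    ring
  rw [h1]
  exact hqr j

/-- **Towers.** -/
theorem noGen_tow [Algebra.EssFiniteType ℂ K] (hw : 0 < w) (hgt : GeneralType ℂ K w) (hy : y ≠ 0)
    (hco : coords ℂ y = ⊤) (hB : TowF B) : NoGen y B := by
  induction hB with
  | base h1 h2 => exact noGen_fin hw hgt hy hco h1 (ess_of_finGen h1 h2)
  | step h1 h2 h3 ih =>
    exact noGen_step (not_uniruled hw hgt hy hco) hy h1.field h2 h3 ih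

/-- polynomials in sequences satisfying linear recurrences -/
theorem linRec_eval (hB : CoefField B) (hx : ∀ j, LinRec B fun m => x m j)
    (G : MvPolynomial (Fin (N + 1)) ℂ) : LinRec B fun m => eval (x m) G := by
  apply linRec_of_LF hB
  induction G using MvPolynomial.induction_on with
  | C a =>
    simp only [eval_C]
    have h1 : (gg fun _ : ℕ => a) = algebraMap (KB B hB) GG (cK hB ⟨_, B.algebraMap_mem a⟩) := by
      rw [alg_cK]
      rfl
    rw [h1]
    exact LF.alg (shK hB) (shG_alg hB) _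
  | add p q hp hq =>
    have h1 : (gg fun m => eval (x m) (p + q)) =
        ∑ i : Fin 2, ![gg fun m => eval (x m) p, gg fun m => eval (x m) q] i := by
      rw [Fin.sum_univ_two]
      change _ = (gg fun m => eval (x m) p) + gg fun m => eval (x m) q
      rw [← map_add]
      congr 1
      funext m
      rw [map_add]
      rfl
    rw [h1]
    refine LF.sum (shK hB) (shG_alg hB) _ fun i _ => ?_
    fin_cases i
    · exact hp
    · exact hq
  | mul_X p i hp =>
    have h1 : (gg fun m => eval (x m) (p * X i)) =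
        (gg fun m => eval (x m) p) * gg fun m => x m i := by
      rw [← map_mul]
      congr 1
      funext m
      rw [map_mul, eval_X]
      rfl
    rw [h1]
    exact hp.mul (LF_of_linRec hB (hx i))

end Pool.Agent.X332.GS
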