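import Mathlib
import Pool.Agent.X332.GS.Tow
import Pool.Agent.X332.OR.Aff

/-!
Images of generic sequences.
-/

set_option autoImplicit false

namespace Pool.Agent.X332.GS

open Filter Module MvPolynomial FF Pool.Agent.W602.GT Pool.Agent.TH143.HE
  Pool.Agent.TH143.TW Pool.Agent.TH143.DE Pool.Agent.TH143.GE Pool.Agent.X332.GT

variable {N : ℕ} {K : Type} [Field K] [Algebra ℂ K] {w : ℕ} {y : Fin (N + 1) → K}
  {B B' : Subalgebra ℂ (ℕ → ℂ)} {x : ℕ → Fin (N + 1) → ℂ}

/-- the image of a generic sequence under a dominant rational map is generic -/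
theorem gen_image (hco : coords ℂ y = ⊤) (hx : GenSeq y x) {E : Type} [Field E] [Algebra ℂ E]
    (f : E →ₐ[ℂ] K) {M : ℕ} (z : Fin (M + 1) → E) :
    ∃ H : Fin (M + 1) → MvPolynomial (Fin (N + 1)) ℂ, GenSeq z fun m i => eval (x m) (H i) := by
  classical
  choose d g1 g0 h1 h0 hne hr using fun i => Pool.Agent.TH143.GT.exists_frac hco (f (z i))
  let H : Fin (M + 1) → MvPolynomial (Fin (N + 1)) ℂ := fun i =>
    g1 i * ∏ j ∈ Finset.univ.erase i, g0 j
  let q : K := ∏ j, W602.GT.val y (g0 j)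
  have hq : q ≠ 0 := Finset.prod_ne_zero_iff.2 fun j _ => hne j
  have hvm : ∀ a b : MvPolynomial (Fin (N + 1)) ℂ,
      W602.GT.val y (a * b) = W602.GT.val y a * W602.GT.val y b := fun a b => map_mul _ a b
  have hHd : ∀ i, (H i).IsHomogeneous (∑ j, d j) := by
    intro i
    have h2 : (∏ j ∈ Finset.univ.erase i, g0 j).IsHomogeneous (∑ j ∈ Finset.univ.erase i, d j) :=
      MvPolynomial.IsHomogeneous.prod _ _ _ fun j _ => h0 j
    have h3 := (h1 i).mul h2
    rwa [Finset.add_sum_erase _ _ (Finset.mem_univ i)] at h3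
  have hHv : ∀ i, W602.GT.val y (H i) = q * f (z i) := by
    intro i
    have h2 : W602.GT.val y (∏ j ∈ Finset.univ.erase i, g0 j) =
        ∏ j ∈ Finset.univ.erase i, W602.GT.val y (g0 j) := map_prod _ _ _
    have h3 : q = W602.GT.val y (g0 i) * ∏ j ∈ Finset.univ.erase i, W602.GT.val y (g0 j) :=
      (Finset.mul_prod_erase _ _ (Finset.mem_univ i)).symm
    rw [hvm, h2, hr i, h3, mul_comm (W602.GT.val y (g0 i)), mul_assoc,
      mul_div_cancel₀ _ (hne i), mul_comm]
  refine ⟨H, ?_⟩
  rintro G ⟨e, he⟩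
  let G' : MvPolynomial (Fin (N + 1)) ℂ := bind₁ H G
  have hG'd : IsForm G' := ⟨_, by
    exact he.aeval H fun i => hHd i⟩
  have hG'v : W602.GT.val y G' = q ^ e * f (W602.GT.val z G) := by
    have h2 : W602.GT.val y G' = W602.GT.val (fun i => W602.GT.val y (H i)) G := by
      change aeval y (bind₁ H G) = aeval (fun i => aeval y (H i)) G
      rw [MvPolynomial.aeval_bind₁]
    have h3 : (fun i => W602.GT.val y (H i)) = fun i => q * f (z i) := funext hHv
    rw [h2, h3]
    rw [W602.GT.val_smul he q (fun i => f (z i))]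
    congr 1
    exact val_map f z G
  have hG'e : ∀ m, eval (x m) G' = eval (fun i => eval (x m) (H i)) G := by
    intro m
    exact Pool.Agent.X332.OR.eval_bind' H G (x m)
  obtain ⟨h2, h3⟩ := hx G' hG'd
  constructor
  · intro h4
    have h5 := h2 (by rw [hG'v, h4, map_zero, mul_zero])
    filter_upwards [h5] with m hm
    rw [← hG'e]
    exact hm
  · intro h4
    have h5 := h3 (by
      rw [hG'v]
      exact mul_ne_zero (pow_ne_zero _ hq) ((map_ne_zero f).2 h4))
    filter_upwards [h5] with m hm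
    rw [← hG'e]
    exact hm

/-- **The theorem.** -/
theorem dominated (hco : coords ℂ y = ⊤) (hB : TowF B) (hx : GenSeq y x)
    (hrec : ∀ j, LinRec B fun m => x m j) (E : IntermediateField ℂ K)
    {v : ℕ} (hv : 0 < v) : ¬ GeneralType ℂ E v := by
  intro hgt
  have hfg : E.FG := Pool.Agent.Y333.IL.t_FGS K (Pool.Agent.Y377.IL.fg_of_coords hco) E
  have htop := Pool.Agent.Y377.IL.fg_top_of_fg hfg
  have hess : Algebra.EssFiniteType ℂ E := IntermediateField.fg_top_iff.1 htop
  obtain ⟨M, p, z, hz⟩ := Pool.Agent.Y377.IL.exists_funField htop hgt.1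
  obtain ⟨H, hH⟩ := gen_image hco hx E.val z
  exact noGen_tow hv hgt hz.sub.ne hz.sub.gen hB _ hH fun j => linRec_eval hB.field hrec (H j)

end Pool.Agent.X332.GS
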