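import Mathlib
import Pool.Agent.X333.NM.Alg
import Pool.Agent.TH710.ND.Lang

/-!
Nested sums of high powers of linear forms or of monomials: the subvarieties which are not of general
type are covered by images of the multiplicative group.
-/

set_option autoImplicit false

namespace Pool.Agent.X332.GS

open FF MvPolynomial Pool.Agent.W602.GT Pool.Agent.TH710.ND
open Pool.Agent.X333.NM

variable {k : Type} [Field k] {n : ℕ} {ι : Type}

theorem alg_sub_gm_high [CharZero k] [IsAlgClosed k] {F : ι → MvPolynomial (Fin (n + 1)) k}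
    {s N h : ℕ} (hF : HighTowers s N h F) (hN : (n + 1) * ((h + 1) * (2 * s + 1) ^ 5) ≤ N) :
    SpAlg F ⊆ SpGm F := by
  classical
  have hNb := (bnd_le hN).1
  have hform : ∀ e, IsForm (F e) := fun e => hF.form e
  rcases hF with hL | hM
  · refine Set.Subset.trans ?_ (line_sub_gm F)
    rintro x ⟨hx, h⟩
    refine ⟨hx, fun G hG hl => h G hG ?_⟩
    intro K _ _ w y hw hy hgt
    have halg : Algebra.IsAlgebraic (coords k y) K := by
      rw [hy.gen]
      infer_instance
    obtain ⟨v, hv, hl'⟩ := waring_n hL hNb hy.ne halg hy.dim hy.mem (not_log hgt)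
    exact mem_closure y v hv hl' hl
  · rintro x ⟨hx, h⟩
    refine ⟨hx, fun G hG hg => h G hG ?_⟩
    intro K _ _ w y hw hy hgt
    have halg : Algebra.IsAlgebraic (coords k y) K := by
      rw [hy.gen]
      infer_instance
    by_contra hne
    obtain ⟨x0, b, hd, hx0⟩ := orbits_of_not (U := ∅) (fun e => (hM e).2) hNb
      (⟨hy.ne, fun j hj => absurd hj (Set.notMem_empty j), hy.mem, halg, hy.dim⟩ :
        MapU ∅ F K w y) (not_log hgt) hne
    obtain ⟨P, hP, hP1⟩ := gm_of_diag hform hd
    have h3 := hg P hP 1 one_ne_zero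
    rw [hP1] at h3
    exact hx0 h3

end Pool.Agent.X332.GS
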