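import Mathlib
import Pool.Agent.X332.GS.GrpSp

/-!
Finiteness of the points over finitely generated fields implies periodicity of the sequences over
finitely generated fields of coefficients.
-/

set_option autoImplicit false

namespace Pool.Agent.X332.GS

open Filter Module MvPolynomial FF Pool.Agent.W602.GT Pool.Agent.TH143.HE
  Pool.Agent.TH143.TW Pool.Agent.TH143.DE Pool.Agent.TH143.GE
open Pool.Agent.X332.TO
open Pool.Agent.X332.GT (Zeros Forms Dyn dynForms dyn_dynForms dynForms_forms dyn_iff dyn_self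
  isPtP_span isPtP_spanC aeval_eval)

variable {n : ℕ} {ι : Type} {F : ι → MvPolynomial (Fin (n + 1)) ℂ}

/-- For every finitely generated subfield `L` of `ℂ` the projective variety `X = {F = 0}` has only
finitely many points outside of `Z` with homogeneous coordinates in `L`. -/
def FieldsFinite (F : ι → MvPolynomial (Fin (n + 1)) ℂ) (Z : Set (Fin (n + 1) → ℂ)) : Prop :=
  ∀ s : Set ℂ, s.Finite → ∃ T : Set (Fin (n + 1) → ℂ), T.Finite ∧
    ∀ x ∈ Cone F, x ∉ Z → (∀ j, x j ∈ Subfield.closure s) → ∃ t ∈ T, ∃ c : ℂ, x = c • t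

/-- the values of a sequence generated by finitely many sequences -/
theorem exists_coeffs {U : Set (ℕ → ℂ)} {p : ℕ → ℂ} (hp : p ∈ Algebra.adjoin ℂ U) :
    ∃ s : Set ℂ, s.Finite ∧ ∀ (L : Subfield ℂ) (m : ℕ), s ⊆ L → (∀ u ∈ U, u m ∈ L) → p m ∈ L := by
  induction hp using Algebra.adjoin_induction with
  | mem u hu => exact ⟨∅, Set.finite_empty, fun L m _ h => h u hu⟩
  | algebraMap c =>
    refine ⟨{c}, Set.finite_singleton c, fun L m h _ => ?_⟩
    exact h rfl
  | add a b _ _ ha hb =>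
    obtain ⟨s, hs, h1⟩ := ha
    obtain ⟨s', hs', h2⟩ := hb
    refine ⟨s ∪ s', hs.union hs', fun L m h h' => ?_⟩
    exact L.add_mem (h1 L m (Set.subset_union_left.trans h) h')
      (h2 L m (Set.subset_union_right.trans h) h')
  | mul a b _ _ ha hb =>
    obtain ⟨s, hs, h1⟩ := ha
    obtain ⟨s', hs', h2⟩ := hb
    refine ⟨s ∪ s', hs.union hs', fun L m h h' => ?_⟩
    exact L.mul_mem (h1 L m (Set.subset_union_left.trans h) h')
      (h2 L m (Set.subset_union_right.trans h) h')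

/-- the values of a sequence in a finitely generated field of coefficients -/
theorem exists_coeffs_fld {B : Subalgebra ℂ (ℕ → ℂ)} {U : Set (ℕ → ℂ)}
    (hU : ∀ b ∈ B, ∃ p ∈ Algebra.adjoin ℂ U, ∃ q ∈ Algebra.adjoin ℂ U,
      (∀ᶠ m in atTop, q m ≠ 0) ∧ ∀ᶠ m in atTop, b m * q m = p m) {b : ℕ → ℂ} (hb : b ∈ B) :
    ∃ (s : Set ℂ) (m0 : ℕ), s.Finite ∧ ∀ (L : Subfield ℂ) (m : ℕ), m0 ≤ m → s ⊆ L →
      (∀ u ∈ U, u m ∈ L) → b m ∈ L := by
  obtain ⟨p, hp, q, hq, hq0, hbq⟩ := hU b hb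
  obtain ⟨s, hs, h1⟩ := exists_coeffs hp
  obtain ⟨s', hs', h2⟩ := exists_coeffs hq
  obtain ⟨m0, hm0⟩ := eventually_atTop.1 (hq0.and hbq)
  refine ⟨s ∪ s', m0, hs.union hs', fun L m hm h h' => ?_⟩
  obtain ⟨h3, h4⟩ := hm0 m hm
  have h5 : b m = p m / q m := by
    rw [eq_div_iff h3]
    exact h4
  rw [h5]
  exact L.div_mem (h1 L m (Set.subset_union_left.trans h) h')
    (h2 L m (Set.subset_union_right.trans h) h')

/-- all values lie in a finitely generated field -/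
theorem exists_fg_field {B : Subalgebra ℂ (ℕ → ℂ)} (hB : CoefField B) (hFg : FinGen B)
    {x : ℕ → Fin (n + 1) → ℂ} (hx : ∀ j, (fun m => x m j) ∈ B) :
    ∃ s : Set ℂ, s.Finite ∧ ∀ᶠ m in atTop, ∀ j, x m j ∈ Subfield.closure s := by
  classical
  obtain ⟨U, hUf, hUB, hU⟩ := hFg
  -- the shifts of the generators
  have h1 : ∀ u ∈ U, ∃ (s : Set ℂ) (m0 : ℕ), s.Finite ∧ ∀ (L : Subfield ℂ) (m : ℕ), m0 ≤ m →
      s ⊆ L → (∀ u ∈ U, u m ∈ L) → u (m + 1) ∈ L := fun u hu =>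
    exists_coeffs_fld hU (hB.shift u (hUB hu))
  choose! s m0 hs h2 using h1
  have h3 : ∀ j, ∃ (s : Set ℂ) (m0 : ℕ), s.Finite ∧ ∀ (L : Subfield ℂ) (m : ℕ), m0 ≤ m →
      s ⊆ L → (∀ u ∈ U, u m ∈ L) → x m j ∈ L := fun j => exists_coeffs_fld hU (hx j)
  choose s' m0' hs' h4 using h3
  obtain ⟨M, hM⟩ : ∃ M : ℕ, (∀ u ∈ U, m0 u ≤ M) ∧ ∀ j, m0' j ≤ M := by
    obtain ⟨M1, hM1⟩ := (hUf.image m0).bddAbove
    obtain ⟨M2, hM2⟩ := (Set.finite_range m0').bddAbove
    refine ⟨max M1 M2, fun u hu => ?_, fun j => ?_⟩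
    · exact (hM1 (Set.mem_image_of_mem _ hu)).trans (le_max_left _ _)
    · exact (hM2 ⟨j, rfl⟩).trans (le_max_right _ _)
  let S : Set ℂ := (⋃ u ∈ U, s u) ∪ (⋃ j, s' j) ∪ (fun u : ℕ → ℂ => u M) '' U
  have hS : S.Finite := by
    refine ((hUf.biUnion fun u hu => hs u hu).union (Set.finite_iUnion fun j => hs' j)).union
      (hUf.image _)
  have hSL : S ⊆ Subfield.closure S := Subfield.subset_closure
  have h5 : ∀ k, ∀ u ∈ U, u (M + k) ∈ Subfield.closure S := by
    intro k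
    induction k with
    | zero =>
      intro u hu
      exact hSL (Or.inr ⟨u, hu, rfl⟩)
    | succ k ih =>
      intro u hu
      refine h2 u hu _ (M + k) ((hM.1 u hu).trans (Nat.le_add_right _ _)) ?_ ih
      refine Set.Subset.trans ?_ hSL
      exact fun z hz => Or.inl (Or.inl (Set.mem_biUnion hu hz))
  refine ⟨S, hS, ?_⟩
  filter_upwards [eventually_ge_atTop M] with m hm j
  obtain ⟨k, rfl⟩ := Nat.exists_eq_add_of_le hm
  refine h4 j _ (M + k) ((hM.2 j).trans (Nat.le_add_right _ _)) ?_ (h5 k)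
  refine Set.Subset.trans ?_ hSL
  exact fun z hz => Or.inl (Or.inr (Set.mem_iUnion.2 ⟨j, hz⟩))

/-- **Finiteness implies periodicity.** -/
theorem fields_of_finite {Z : Set (Fin (n + 1) → ℂ)} (h : FieldsFinite F Z) :
    FieldsPeriodic F Z := by
  classical
  intro B hB hFg x hx hX hZ
  obtain ⟨s, hs, hs1⟩ := exists_fg_field hB hFg hx
  obtain ⟨T, hT, hT1⟩ := h s hs
  -- some point is attained infinitely often
  have h1 : ∀ᶠ m in atTop, ∃ t ∈ T, ∃ c : ℂ, x m = c • t := by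
    filter_upwards [hs1, hX, hZ] with m h2 h3 h4
    exact hT1 _ h3 h4 h2
  have h2 : ∃ t ∈ T, ∃ᶠ m in atTop, ∃ c : ℂ, x m = c • t := by
    by_contra hcon
    push Not at hcon
    have h3 : ∀ᶠ m in atTop, ∀ t ∈ T, ¬ ∃ c : ℂ, x m = c • t := by
      rw [Set.Finite.eventually_all hT]
      intro t ht
      exact not_frequently.1 (by simpa using hcon t ht)
    obtain ⟨m, ⟨t, ht, h4⟩, h5⟩ := (h1.and h3).exists
    exact h5 t ht h4
  obtain ⟨t, ht, hfr⟩ := h2
  have h3 : ∀ i j, ∀ᶠ m in atTop, x m i * t j = x m j * t i := by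
    intro i j
    have h4 : (fun m => x m i * t j - x m j * t i) ∈ B := by
      refine B.sub_mem (B.mul_mem (hx i) (B.algebraMap_mem (t j)))
        (B.mul_mem (hx j) (B.algebraMap_mem (t i)))
    rcases hB.dich _ h4 with h5 | h5
    · filter_upwards [h5] with m hm
      exact sub_eq_zero.1 hm
    · exfalso
      obtain ⟨m, ⟨c, hc⟩, h6⟩ := (hfr.and_eventually h5).exists
      apply h6
      rw [hc]
      simp only [Pi.smul_apply, smul_eq_mul]
      ring
  have h4 : ∀ᶠ m in atTop, ∀ i j, x m i * t j = x m j * t i := by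
    rw [eventually_all]
    intro i
    rw [eventually_all]
    exact h3 i
  obtain ⟨m0, hm0⟩ := eventually_atTop.1 (h4.and hX)
  refine ⟨1, m0, one_pos, fun m hm i j => ?_⟩
  obtain ⟨h5, -⟩ := hm0 m hm
  obtain ⟨h6, h7⟩ := hm0 (m + 1) (by omega)
  have ht0 : t ≠ 0 := by
    intro h0
    obtain ⟨m', c, hc⟩ := (hfr.and_eventually hX).exists
    apply hc.1
    obtain ⟨c', hc'⟩ := c
    rw [hc', h0, smul_zero]
  obtain ⟨l, hl⟩ := Function.ne_iff.1 ht0
  have hl' : t l ≠ 0 := hl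
  apply mul_right_cancel₀ (mul_ne_zero hl' hl')
  calc x (m + 1) i * x m j * (t l * t l) = (x (m + 1) i * t l) * (x m j * t l) := by ring
    _ = (x (m + 1) l * t i) * (x m l * t j) := by rw [h6 i l, h5 j l]
    _ = (x (m + 1) l * t j) * (x m l * t i) := by ring
    _ = (x (m + 1) j * t l) * (x m i * t l) := by rw [h6 j l, h5 i l]
    _ = x (m + 1) j * x m i * (t l * t l) := by ring

/-- The intersection of the closed subsets `Z` of `X` outside of which `X` has only finitely many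
points over each finitely generated field (as a cone). -/
def SpArith (F : ι → MvPolynomial (Fin (n + 1)) ℂ) : Set (Fin (n + 1) → ℂ) :=
  {x | x ∈ Cone F ∧ ∀ S : Set (MvPolynomial (Fin (n + 1)) ℂ), Forms S →
    FieldsFinite F (Zeros ℂ S) → x ∈ Zeros ℂ S}

/-- The intersection has the same property. -/
theorem finite_spArith : FieldsFinite F (SpArith F) := by
  classical
  intro s hs
  let A : Set (MvPolynomial (Fin (n + 1)) ℂ) :=
    {G | ∃ S, Forms S ∧ FieldsFinite F (Zeros ℂ S) ∧ G ∈ S}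
  obtain ⟨T, hTA, hT⟩ := (Submodule.fg_span_iff_fg_span_finset_subset A).1
    (IsNoetherian.noetherian (Submodule.span (MvPolynomial (Fin (n + 1)) ℂ) A))
  have hex : ∀ G ∈ A, ∃ R : Set (Fin (n + 1) → ℂ), R.Finite ∧ ∀ x ∈ Cone F, eval x G ≠ 0 →
      (∀ j, x j ∈ Subfield.closure s) → ∃ t ∈ R, ∃ c : ℂ, x = c • t := by
    rintro G ⟨S, hS, hfin, hGS⟩
    obtain ⟨R, hR, hR1⟩ := hfin s hs
    refine ⟨R, hR, fun x hx hGx hxs => hR1 x hx (fun h0 => hGx ?_) hxs⟩
    rw [← aeval_eval]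
    exact h0 G hGS
  choose! R hR hR1 using hex
  refine ⟨⋃ G ∈ T, R G, T.finite_toSet.biUnion fun G hG => hR G (hTA hG), fun x hx hxZ hxs => ?_⟩
  have h1 : ∃ G ∈ T, eval x G ≠ 0 := by
    by_contra hcon
    push Not at hcon
    apply hxZ
    refine ⟨hx, fun S hS hfin G hG => ?_⟩
    have h2 : Submodule.span (MvPolynomial (Fin (n + 1)) ℂ) A ≤
        RingHom.ker (eval x : MvPolynomial (Fin (n + 1)) ℂ →+* ℂ) := by
      rw [hT]
      exact Submodule.span_le.2 fun G hG => hcon G hG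
    rw [aeval_eval]
    exact h2 (Submodule.subset_span ⟨S, hS, hfin, hG⟩)
  obtain ⟨G, hG, hGx⟩ := h1
  obtain ⟨t, ht, h2⟩ := hR1 G (hTA hG) x hx hGx hxs
  exact ⟨t, Set.mem_biUnion hG ht, h2⟩

theorem dyn_sub_arith (hF : ∀ e, IsForm (F e)) : SpDyn F ⊆ SpArith F := by
  rintro x ⟨hx, hx'⟩
  refine ⟨hx, fun S hS hfin => hx' S hS ?_⟩
  exact (tow_iff hF hS).2 ((fields_iff hF hS).1 (fields_of_finite hfin))

end Pool.Agent.X332.GS
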