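import Mathlib
import Pool.Agent.X332.GS.Arith
import Pool.Agent.X332.GS.Pseudo

/-!
Hyperbolicity in terms of sequences and group curves.
-/

set_option autoImplicit false

namespace Pool.Agent.X332.GS

open Filter Module MvPolynomial FF Pool.Agent.W602.GT
open Pool.Agent.X332.GT (Zeros Forms Dyn dynForms dyn_dynForms dynForms_forms dyn_iff dyn_self
  isPtP_span isPtP_spanC aeval_eval)

variable {n : ℕ} {ι : Type} {F : ι → MvPolynomial (Fin (n + 1)) ℂ}

theorem forms_one : Forms ({1} : Set (MvPolynomial (Fin (n + 1)) ℂ)) := by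
  intro G hG
  rw [Set.mem_singleton_iff.1 hG]
  exact ⟨0, isHomogeneous_one _ _⟩

theorem zeros_one : Zeros ℂ ({1} : Set (MvPolynomial (Fin (n + 1)) ℂ)) = ∅ := by
  rw [Set.eq_empty_iff_forall_notMem]
  intro x hx
  have h3 := hx 1 rfl
  rw [map_one] at h3
  exact one_ne_zero h3

/-- dynamical hyperbolicity excludes group curves -/
theorem no_grp (hF : ∀ e, IsForm (F e)) (h : TowersPeriodic F ∅) : ∀ y, ¬ GrpImage F y := by
  intro y hy
  rw [← zeros_one] at h
  have h1 := grp_of_dyn hF forms_one ((tow_iff hF forms_one).1 h) hy 0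
  rw [zeros_one] at h1
  exact h1

/-- the multiplicative group gives a group curve -/
theorem no_gm_of_grp (h : ∀ y, ¬ GrpImage F y) : ∀ P, ¬ GmCurve F P := by
  intro P hP
  have h1 : (fun i => (P i).eval 1) ∈ SpGm F :=
    ⟨⟨hP.ne 1 one_ne_zero, hP.mem 1 one_ne_zero⟩, fun H _ hH => hH P hP 1 one_ne_zero⟩
  have h2 := (gm_sub_grp h1).2 1 ⟨0, isHomogeneous_one _ _⟩ fun y hy => absurd hy (h y)
  rw [map_one] at h2
  exact one_ne_zero h2

theorem tow_of_all (hF : ∀ e, IsForm (F e))
    (h : ∀ (K : Type) [Field K] [Algebra ℂ K] (w : ℕ) (y : Fin (n + 1) → K), 1 ≤ w →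
      SubVar F K w y → GeneralType ℂ K w) : TowersPeriodic F ∅ := by
  have h1 := tow_spDyn hF
  rwa [fields_of_all hF h] at h1

theorem tow_of_finite (hF : ∀ e, IsForm (F e)) (h : FieldsFinite F ∅) : TowersPeriodic F ∅ := by
  rw [← zeros_one] at h ⊢
  exact (tow_iff hF forms_one).2 ((fields_iff hF forms_one).1 (fields_of_finite h))

end Pool.Agent.X332.GS
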